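import Mathlib
import Pool.Agent.Lib.MP_fd1949_P.Struct

/-!
# Combs with zones
-/

namespace Pool.Agent.MP_fd1949_A

open Pool.Agent.MP_fd1949_co Pool.Agent.MP_fd1949_P

/-- A comb with zones: `N` far apart geodesics (columns) of length `Θ`, and `k` far apart walks
(rows); the row `m` meets the column `c` at the height `t m`, and comes `q₂`-close to it only at
heights between `lo m` and `hi m` (the zone of the row `m`). -/
structure ZComb {V : Type} (G : SimpleGraph V) (k N q₂ Δ Θ : ℕ) where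
  col : Fin N → ℕ → V
  t : Fin k → ℕ
  lo : Fin k → ℕ
  hi : Fin k → ℕ
  R : Fin k → ℕ → V
  len : Fin k → ℕ
  col_adj : ∀ c n, n < Θ → G.Adj (col c n) (col c (n + 1))
  col_geo : ∀ c n n', n ≤ n' → n' ≤ Θ → ∀ w : G.Walk (col c n) (col c n'), n' ≤ n + w.length
  col_far : ∀ c c', c ≠ c' → ∀ n n', n ≤ Θ → n' ≤ Θ → ∀ w : G.Walk (col c n) (col c' n'),
    Δ ≤ w.length
  row_adj : ∀ m n, n < len m → G.Adj (R m n) (R m (n + 1))
  row_far : ∀ m m', m ≠ m' → ∀ n n', n ≤ len m → n' ≤ len m' → ∀ w : G.Walk (R m n) (R m' n'),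
    q₂ < w.length
  zone : ∀ m, lo m + q₂ ≤ t m ∧ t m ≤ hi m
  hi_le : ∀ m, hi m ≤ Θ
  gap : ∀ m m', m < m' → hi m' + q₂ < lo m
  meet : ∀ m c, ∃ n ≤ len m, R m n = col c (t m)
  cp : ∀ m c n n', n ≤ len m → n' ≤ Θ → NearN G q₂ (R m n) (col c n') → lo m ≤ n' ∧ n' ≤ hi m

variable {V : Type} {G : SimpleGraph V} {k N q₂ Δ Θ : ℕ}

/-- The vertex set of a column. -/
def ZComb.Col (C : ZComb G k N q₂ Δ Θ) (c : Fin N) : Set V := {z | ∃ n ≤ Θ, z = C.col c n}

/-- The vertex set of a row. -/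
def ZComb.Row (C : ZComb G k N q₂ Δ Θ) (m : Fin k) : Set V := {z | ∃ n ≤ C.len m, z = C.R m n}

/-- The part of the column `c` in the zone of the row `m`. -/
def ZComb.Seg (C : ZComb G k N q₂ Δ Θ) (m : Fin k) (c : Fin N) : Set V :=
  {z | ∃ n, C.lo m ≤ n ∧ n ≤ C.hi m ∧ z = C.col c n}

/-- The row and the parts of all columns in its zone. -/
def ZComb.Zn (C : ZComb G k N q₂ Δ Θ) (m : Fin k) : Set V := C.Row m ∪ ⋃ c, C.Seg m c

/-- The common point of the row `m` and the column `c`. -/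
def ZComb.x (C : ZComb G k N q₂ Δ Θ) (m : Fin k) (c : Fin N) : V := C.col c (C.t m)

/-- The tube around the part of the column `c` in the zone of the row `m`. -/
def ZComb.tube (C : ZComb G k N q₂ Δ Θ) (ω : ℕ) (m : Fin k) (c : Fin N) : Set V :=
  nbhd G ω (C.Seg m c)

/-- The row `m` is free with respect to the columns of `D`. -/
def ZComb.IsFree (C : ZComb G k N q₂ Δ Θ) (q S ω : ℕ) (m : Fin k) (D : Finset (Fin N)) : Prop :=
  Free G q (C.x m) C.Col (nbhd G (ω + S) (C.Zn m)) D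

/-- The row `m` is linear with respect to the columns of `D`. -/
def ZComb.IsLin (C : ZComb G k N q₂ Δ Θ) (q S ω : ℕ) (m : Fin k) (D : Finset (Fin N)) : Prop :=
  Linear G q S (C.tube ω m) C.Col (nbhd G (ω + S) (C.Zn m)) D

/-- The inequalities between the constants. -/
structure ZCst (N q S q₁ ω q₂ Δ : ℕ) : Prop where
  hq : 1 ≤ q
  hS : q * 10 ^ ((2 * N) ^ 2 + 1) ≤ S
  hq₁ : q + S ≤ q₁
  hω : q₁ + 1 ≤ ω
  hq₂ : 2 * (ω + S) + q ≤ q₂
  hΔ : q₂ < Δ

lemma ZComb.seg_conn (C : ZComb G k N q₂ Δ Θ) (m : Fin k) (c : Fin N) : Conn G (C.Seg m c) :=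
  conn_seq (C.col c) fun n _ hn => C.col_adj c n (by have := C.hi_le m; omega)

lemma ZComb.x_mem_seg (C : ZComb G k N q₂ Δ Θ) (m : Fin k) (c : Fin N) : C.x m c ∈ C.Seg m c :=
  ⟨C.t m, by have := C.zone m; omega, (C.zone m).2, rfl⟩

lemma conn_nbhd {A : Set V} (hA : Conn G A) (n : ℕ) : Conn G (nbhd G n A) := by
  rintro u ⟨x, hx, hu⟩ v ⟨y, hy, hv⟩
  obtain ⟨w1, -, h1⟩ := NearN.exists_walk hu
  obtain ⟨w2, h2⟩ := hA x hx y hy
  obtain ⟨w3, -, h3⟩ := NearN.exists_walk hv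
  refine ⟨w1.reverse.append (w2.append w3), fun z hz => ?_⟩
  rcases (SimpleGraph.Walk.mem_support_append_iff _ _).1 hz with hz | hz
  · rw [SimpleGraph.Walk.support_reverse, List.mem_reverse] at hz
    exact ⟨x, hx, (h1 z hz).1⟩
  rcases (SimpleGraph.Walk.mem_support_append_iff _ _).1 hz with hz | hz
  · exact subset_nbhd n A (h2 z hz)
  · exact ⟨y, hy, (h3 z hz).1⟩

lemma ZComb.tube_conn (C : ZComb G k N q₂ Δ Θ) (ω : ℕ) (m : Fin k) (c : Fin N) :
    Conn G (C.tube ω m c) := conn_nbhd (C.seg_conn m c) ω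

lemma ZComb.seg_sub_col (C : ZComb G k N q₂ Δ Θ) (m : Fin k) (c : Fin N) :
    C.Seg m c ⊆ C.Col c := by
  rintro z ⟨n, -, hn, rfl⟩
  exact ⟨n, hn.trans (C.hi_le m), rfl⟩

lemma ZComb.col_far' (C : ZComb G k N q₂ Δ Θ) {c c' : Fin N} (h : c ≠ c') :
    Far G Δ (C.Col c) (C.Col c') := by
  rintro _ ⟨n, hn, rfl⟩ _ ⟨n', hn', rfl⟩ w
  exact C.col_far c c' h n n' hn hn' w

/-- The zones of different rows are far apart. -/
lemma ZComb.zn_far (C : ZComb G k N q₂ Δ Θ) (hΔ : q₂ < Δ) {m m' : Fin k} (h : m ≠ m') :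
    Far G (q₂ + 1) (C.Zn m) (C.Zn m') := by
  -- row and segment
  have key : ∀ m m' : Fin k, m ≠ m' → ∀ c, Far G (q₂ + 1) (C.Row m) (C.Seg m' c) := by
    intro m m' h c
    rw [far_succ_iff]
    rintro _ ⟨n, hn, rfl⟩ _ ⟨n', h1, h2, rfl⟩ hnear
    have h3 := C.cp m c n n' hn (h2.trans (C.hi_le m')) hnear
    rcases lt_or_gt_of_ne h with h4 | h4
    · have := C.gap m m' h4
      omega
    · have := C.gap m' m h4
      omega
  rintro x (hx | hx) y (hy | hy) w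
  · obtain ⟨n, hn, rfl⟩ := hx
    obtain ⟨n', hn', rfl⟩ := hy
    exact C.row_far m m' h n n' hn hn' w
  · obtain ⟨c, hy⟩ := Set.mem_iUnion.1 hy
    exact key m m' h c x hx y hy w
  · obtain ⟨c, hx⟩ := Set.mem_iUnion.1 hx
    exact (key m' m h.symm c).symm x hx y hy w
  · obtain ⟨c, hx⟩ := Set.mem_iUnion.1 hx
    obtain ⟨c', hy⟩ := Set.mem_iUnion.1 hy
    by_cases hc : c = c'
    · subst hc
      obtain ⟨n, h1, h2, rfl⟩ := hx
      obtain ⟨n', h3, h4, rfl⟩ := hy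
      rcases lt_or_gt_of_ne h with h5 | h5
      · have h6 := C.gap m m' h5
        have h7 := C.col_geo c n' n (by omega) (h2.trans (C.hi_le m)) w.reverse
        rw [SimpleGraph.Walk.length_reverse] at h7
        omega
      · have h6 := C.gap m' m h5
        have h7 := C.col_geo c n n' (by omega) (h4.trans (C.hi_le m')) w
        omega
    · have := C.col_far' hc x (C.seg_sub_col m c hx) y (C.seg_sub_col m' c' hy) w
      omega

end Pool.Agent.MP_fd1949_A
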