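import Mathlib
import Pool.Agent.Lib.MP_fd1949_A.ZDef

/-!
# Units of a row, for arbitrary sets instead of centres
-/

namespace Pool.Agent.MP_fd1949_A

open Pool.Agent.MP_fd1949_co Pool.Agent.MP_fd1949_P

theorem unitsZ {V : Type} {G : SimpleGraph V} (R : ℕ → V) (len : ℕ)
    (hadj : ∀ n < len, G.Adj (R n) (R (n + 1))) {ι : Type} (K : ι → Set V) (D₀ : Finset ι) (ω : ℕ)
    (hfar : ∀ c ∈ D₀, ∀ c' ∈ D₀, c ≠ c' → Far G (2 * ω + 2) (K c) (K c'))
    (hmeet : ∀ c ∈ D₀, ∃ n ≤ len, R n ∈ nbhd G ω (K c)) (hne : D₀.Nonempty) :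
    ∃ c₀ ∈ D₀, ∃ (u : ι → Set V) (rk : ι → ℕ), ∀ c ∈ D₀, c ≠ c₀ → Conn G (u c) ∧
      (∀ z ∈ u c, ∃ n ≤ len, z = R n) ∧ (∃ z ∈ u c, z ∈ nbhd G ω (K c)) ∧
      (∃ c' ∈ D₀, rk c' < rk c ∧ ∃ z ∈ u c, z ∈ nbhd G ω (K c')) ∧
      ∀ z ∈ u c, ∀ c' ∈ D₀, Far G ω (K c') {z} := by
  classical
  set τ : ι → ℕ := fun c => if h : ∃ n, R n ∈ nbhd G ω (K c) then Nat.find h else 0 with hτ
  have τ_near : ∀ c ∈ D₀, R (τ c) ∈ nbhd G ω (K c) := by
    intro c hc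
    obtain ⟨n, -, hn⟩ := hmeet c hc
    have h : ∃ n, R n ∈ nbhd G ω (K c) := ⟨n, hn⟩
    have : τ c = Nat.find h := by rw [hτ]; exact dif_pos h
    rw [this]
    exact Nat.find_spec h
  have τ_min : ∀ c ∈ D₀, ∀ n, R n ∈ nbhd G ω (K c) → τ c ≤ n := by
    intro c hc n hn
    have h : ∃ n, R n ∈ nbhd G ω (K c) := ⟨n, hn⟩
    have : τ c = Nat.find h := by rw [hτ]; exact dif_pos h
    rw [this]
    exact Nat.find_min' h hn
  have τ_le : ∀ c ∈ D₀, τ c ≤ len := by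
    intro c hc
    obtain ⟨n, hnl, hn⟩ := hmeet c hc
    exact (τ_min c hc n hn).trans hnl
  have hdisj : ∀ c ∈ D₀, ∀ c' ∈ D₀, ∀ n, R n ∈ nbhd G ω (K c) → R n ∈ nbhd G ω (K c') →
      c = c' := by
    intro c hc c' hc' n h1 h2
    by_contra hne'
    obtain ⟨x, hx, hxn⟩ := h1
    obtain ⟨y, hy, hyn⟩ := h2
    exact (hfar c hc c' hc' hne').not_near (m := ω + ω) (by omega) hx hy (hxn.trans hyn.symm)
  have hnext : ∀ {n m : ℕ} {c : ι}, G.Adj (R n) (R m) → (∃ x ∈ K c, ∃ l, l < ω ∧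
      NearN G l x (R n)) → R m ∈ nbhd G ω (K c) := by
    rintro n m c hnm ⟨x, hx, l, hl, hxn⟩
    exact ⟨x, hx, (hxn.trans (NearN.of_adj hnm)).mono (by omega)⟩
  obtain ⟨c₀, hc₀, hmin⟩ := D₀.exists_min_image τ hne
  have key : ∀ c, c ∈ D₀ → c ≠ c₀ → ∃ U : Set V, Conn G U ∧
      (∀ z ∈ U, ∃ n ≤ len, z = R n) ∧ (∃ z ∈ U, z ∈ nbhd G ω (K c)) ∧
      (∃ c' ∈ D₀, τ c' < τ c ∧ ∃ z ∈ U, z ∈ nbhd G ω (K c')) ∧
      ∀ z ∈ U, ∀ c' ∈ D₀, Far G ω (K c') {z} := by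
    intro c hc hcc
    have hlt : τ c₀ < τ c := by
      refine lt_of_le_of_ne (hmin c hc) fun heq => hcc ?_
      have h1 := τ_near c₀ hc₀
      rw [heq] at h1
      exact hdisj c hc c₀ hc₀ _ (τ_near c hc) h1
    set S : Finset ℕ := (Finset.range (τ c)).filter
      (fun n => ∃ c' ∈ D₀, R n ∈ nbhd G ω (K c')) with hS
    have hSne : S.Nonempty := ⟨τ c₀, by
      rw [hS, Finset.mem_filter, Finset.mem_range]
      exact ⟨hlt, c₀, hc₀, τ_near c₀ hc₀⟩⟩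
    have hiS := S.max'_mem hSne
    have hmax : ∀ n ∈ S, n ≤ S.max' hSne := fun n hn => S.le_max' n hn
    set i := S.max' hSne with hi
    rw [hS, Finset.mem_filter, Finset.mem_range] at hiS
    obtain ⟨hij, c', hc', hic'⟩ := hiS
    have hjl := τ_le c hc
    have hno : ∀ n, i < n → n < τ c → ∀ c'' ∈ D₀, R n ∉ nbhd G ω (K c'') := by
      intro n h1 h2 c'' hc'' h3
      have := hmax n (by
        rw [hS, Finset.mem_filter, Finset.mem_range]
        exact ⟨h2, c'', hc'', h3⟩)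
      omega
    refine ⟨{z | ∃ n, i ≤ n ∧ n ≤ τ c ∧ z = R n}, ?_, ?_, ?_, ?_, ?_⟩
    · exact conn_seq R fun n _ hn => hadj n (by omega)
    · rintro z ⟨n, -, hn, rfl⟩
      exact ⟨n, by omega, rfl⟩
    · exact ⟨R (τ c), ⟨τ c, by omega, le_rfl, rfl⟩, τ_near c hc⟩
    · refine ⟨c', hc', ?_, R i, ⟨i, le_rfl, by omega, rfl⟩, hic'⟩
      have := τ_min c' hc' i hic'
      omega
    · rintro z ⟨n, hin, hnj, rfl⟩ c'' hc''
      rintro x hx _ rfl w
      by_contra hlt'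
      have hlt' : w.length < ω := not_le.1 hlt'
      have hnear : ∃ x ∈ K c'', ∃ l, l < ω ∧ NearN G l x (R n) :=
        ⟨x, hx, w.length, hlt', ⟨w, le_rfl⟩⟩
      have hnω : R n ∈ nbhd G ω (K c'') := ⟨x, hx, ⟨w, hlt'.le⟩⟩
      rcases eq_or_lt_of_le hin with h1 | h1
      · subst h1
        -- `n = i`
        have h2 : R (i + 1) ∈ nbhd G ω (K c'') := hnext (hadj i (by omega)) hnear
        rcases eq_or_lt_of_le (Nat.succ_le_of_lt hij) with h3 | h3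
        · have h4 : i + 1 = τ c := h3
          rw [h4] at h2
          have h5 : c'' = c := hdisj c'' hc'' c hc _ h2 (τ_near c hc)
          subst h5
          have := τ_min c'' hc i hnω
          omega
        · exact hno (i + 1) (by omega) h3 c'' hc'' h2
      · rcases eq_or_lt_of_le hnj with h2 | h2
        · -- `n = τ c`
          obtain ⟨m, rfl⟩ : ∃ m, n = m + 1 := ⟨n - 1, by omega⟩
          have h3 : R m ∈ nbhd G ω (K c'') := hnext (hadj m (by omega)).symm hnear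
          have h6 : R (τ c) ∈ nbhd G ω (K c'') := by rw [← h2]; exact hnω
          have h5 : c'' = c := hdisj c'' hc'' c hc _ h6 (τ_near c hc)
          subst h5
          have := τ_min c'' hc m h3
          omega
        · exact hno n h1 h2 c'' hc'' hnω
  choose! u hu using key
  exact ⟨c₀, hc₀, u, τ, hu⟩

end Pool.Agent.MP_fd1949_A
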