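import Mathlib
import Pool.Agent.Lib.MP_fd1949_P.RowA
import Pool.Agent.Lib.MP_fd1949_P.Trans
import Pool.Agent.Lib.MP_fd1949_P.MkFat
import Pool.Agent.Lib.MP_fd1949_A.UnitsZ

/-!
# Rows of combs with zones are free or linear
-/

namespace Pool.Agent.MP_fd1949_A

open Pool.Agent.MP_fd1949_co Pool.Agent.MP_fd1949_P

theorem exists_rowSysZ {V : Type} {G : SimpleGraph V} {k N q S q₁ ω q₂ Δ Θ : ℕ}
    (C : ZComb G k N q₂ Δ Θ) (hc : ZCst N q S q₁ ω q₂ Δ) (m : Fin k)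
    (D₀ : Finset (Fin N)) (hne : D₀.Nonempty) :
    ∃ ρ : RowSys G {c // c ∈ D₀} S q₁, (∀ c, ρ.x c = C.x m c) ∧
      (∀ c, ρ.X c = C.tube ω m c) ∧ (∀ c, ρ.Col c = C.Col c) ∧
      ρ.All ⊆ nbhd G ω (C.Zn m) := by
  classical
  obtain ⟨hq, hS, hq₁, hω, hq₂, hΔ⟩ := hc
  have hfar : ∀ c c' : Fin N, c ≠ c' → Far G Δ (C.Seg m c) (C.Col c') := fun c c' hcc =>
    (C.col_far' hcc).mono le_rfl (C.seg_sub_col m c) subset_rfl
  obtain ⟨c₀, hc₀, u, rk, hu⟩ := unitsZ (C.R m) (C.len m) (fun n hn => C.row_adj m n hn)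
    (C.Seg m) D₀ ω
    (fun c _ c' _ hcc => (hfar c c' hcc).mono (by omega) subset_rfl (C.seg_sub_col m c'))
    (fun c _ => by
      obtain ⟨n, hn, h⟩ := C.meet m c
      exact ⟨n, hn, by rw [h]; exact subset_nbhd _ _ (C.x_mem_seg m c)⟩)
    hne
  have hfC : ∀ c c' : Fin N, c ≠ c' → Far G (q₁ + 1) (C.tube ω m c) (C.Col c') := by
    intro c c' hcc
    refine (((hfar c c' hcc).mono (m := q₁ + 1 + ω + 0) (by omega) subset_rfl subset_rfl).nbhd).mono
      le_rfl subset_rfl (subset_nbhd _ _)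
  have hfX : ∀ c c' : Fin N, c ≠ c' → Far G (S + 1) (C.tube ω m c) (C.tube ω m c') := by
    intro c c' hcc
    exact ((hfar c c' hcc).mono (m := S + 1 + ω + ω) (by omega) subset_rfl
      (C.seg_sub_col m c')).nbhd
  have hfU : ∀ c ∈ D₀, c ≠ c₀ → ∀ c' ∈ D₀, Far G (q₁ + 1) (u c) (C.Col c') := by
    intro c hcD hcc c' hcD'
    obtain ⟨-, hrow, -, -, hlast⟩ := hu c hcD hcc
    refine far_of ?_
    rintro z hz z' ⟨n', hn', rfl⟩ k hk h
    obtain ⟨n, hn, rfl⟩ := hrow z hz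
    have hcp := C.cp m c' n n' hn hn' (h.mono (by omega))
    exact (hlast _ hz c' hcD').not_near (m := k) (by omega)
      ⟨n', hcp.1, hcp.2, rfl⟩ rfl h.symm
  have hxt : ∀ c, C.x m c ∈ C.tube ω m c := fun c => subset_nbhd _ _ (C.x_mem_seg m c)
  refine ⟨{ c₀ := ⟨c₀, hc₀⟩
            x := fun c => C.x m c
            X := fun c => C.tube ω m c
            u := fun c => if (c : Fin N) = c₀ then C.tube ω m c else u c
            Col := fun c => C.Col c
            rk := fun c => rk c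
            connX := fun c => C.tube_conn ω m c
            connU := ?_
            memX := fun c => hxt c
            meet := ?_
            link := ?_
            farX := fun c c' hcc => hfX c c' fun h => hcc (Subtype.ext h)
            farU := ?_
            farC := fun c c' hcc => hfC c c' fun h => hcc (Subtype.ext h) },
    fun _ => rfl, fun _ => rfl, fun _ => rfl, ?_⟩
  · rintro ⟨c, hcD⟩
    dsimp only
    split_ifs with h
    · exact C.tube_conn ω m c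
    · exact (hu c hcD h).1
  · rintro ⟨c, hcD⟩
    dsimp only
    split_ifs with h
    · exact ⟨C.x m c, hxt c, hxt c⟩
    · obtain ⟨z, hz, hzn⟩ := (hu c hcD h).2.2.1
      exact ⟨z, hz, hzn⟩
  · rintro ⟨c, hcD⟩ hne'
    have h : c ≠ c₀ := fun h => hne' (Subtype.ext h)
    obtain ⟨c', hcD', hrk, z, hz, hzn⟩ := (hu c hcD h).2.2.2.1
    refine ⟨⟨c', hcD'⟩, hrk, z, ?_, hzn⟩
    dsimp only
    rw [if_neg h]
    exact hz
  · rintro ⟨c, hcD⟩ ⟨c', hcD'⟩ hne'
    have h' : c' ≠ c₀ := fun h => hne' (Subtype.ext h)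
    dsimp only
    split_ifs with h
    · exact hfC c c' (by rw [h]; exact h'.symm)
    · exact hfU c hcD h c' hcD'
  · have htube : ∀ (c : Fin N) (z : V), z ∈ C.tube ω m c → z ∈ nbhd G ω (C.Zn m) := by
      intro c z hz
      exact nbhd_mono le_rfl (fun y hy => Or.inr (Set.mem_iUnion.2 ⟨c, hy⟩)) hz
    rintro z ⟨e, hz⟩
    rcases e with ⟨c, hcD⟩ | ⟨c, hcD⟩
    · exact htube c z hz
    · simp only [RowSys.el, Sum.elim_inr] at hz
      split_ifs at hz with h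
      · exact htube c z hz
      · obtain ⟨n, hn, rfl⟩ := (hu c hcD h).2.1 z hz
        exact subset_nbhd _ _ (Or.inl ⟨n, hn, rfl⟩)

theorem ZComb.fl_subset {V : Type} {G : SimpleGraph V} {k N q S ω q₂ Δ Θ : ℕ}
    (C : ZComb G k N q₂ Δ Θ) (m : Fin k) {D D' : Finset (Fin N)} (hD : D' ⊆ D)
    (hm : C.IsFree q S ω m D ∨ C.IsLin q S ω m D) :
    C.IsFree q S ω m D' ∨ C.IsLin q S ω m D' := by
  rcases hm with h | h
  · exact Or.inl (Free.subset h hD subset_rfl)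
  · exact Or.inr (Linear.subset h hD subset_rfl)

theorem one_rowZ (n : ℕ) : ∃ N₁ : ℕ, ∀ (V : Type) (G : SimpleGraph V)
    (k N q S q₁ ω q₂ Δ Θ : ℕ) (C : ZComb G k N q₂ Δ Θ), ZCst N q S q₁ ω q₂ Δ →
    ∀ (m : Fin k) (D₀ : Finset (Fin N)), N₁ ≤ D₀.card →
      ∃ D ⊆ D₀, n ≤ D.card ∧ (C.IsFree q S ω m D ∨ C.IsLin q S ω m D) := by
  classical
  obtain ⟨N₁, hN₁⟩ := rowA n
  refine ⟨max N₁ 1, ?_⟩
  intro V G k N q S q₁ ω q₂ Δ Θ C hc m D₀ hcard
  have hne : D₀.Nonempty := by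
    rw [← Finset.card_pos]
    have := le_max_right N₁ 1
    omega
  obtain ⟨ρ, hx, hX, hCol, hAll⟩ := exists_rowSysZ C hc m D₀ hne
  have hc1 : Nat.card {c // c ∈ D₀} = D₀.card := by
    rw [Nat.card_eq_fintype_card, Fintype.card_coe]
  have hc2 : D₀.card ≤ N := by
    have := Finset.card_le_univ D₀
    rwa [Fintype.card_fin] at this
  have hscale : q * 10 ^ ((2 * Nat.card {c // c ∈ D₀}) ^ 2 + 1) ≤ S := by
    refine le_trans ?_ hc.hS
    rw [hc1]
    refine Nat.mul_le_mul_left _ (Nat.pow_le_pow_right (by norm_num) ?_)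
    have := Nat.pow_le_pow_left (Nat.mul_le_mul_left 2 hc2) 2
    omega
  obtain ⟨D₁, hD₁, hor⟩ := hN₁ V G {c // c ∈ D₀} q S q₁
    (by rw [hc1]; exact (le_max_left _ _).trans hcard) hc.hq hscale hc.hq₁ ρ
  have hNb : nbhd G S ρ.All ⊆ nbhd G (ω + S) (C.Zn m) :=
    (nbhd_mono le_rfl hAll).trans (nbhd_nbhd _ _ _)
  refine ⟨D₁.map (Function.Embedding.subtype _), ?_, ?_, ?_⟩
  · intro c hc'
    obtain ⟨c', -, rfl⟩ := Finset.mem_map.1 hc'
    exact c'.2
  · rw [Finset.card_map]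
    exact hD₁
  · rcases hor with h | h
    · refine Or.inl (Free.subset (Free.map (Function.Embedding.subtype _)
        (fun c _ => (hx c).symm) (fun c _ => (hCol c).symm) h) subset_rfl hNb)
    · refine Or.inr (Linear.subset (Linear.map (Function.Embedding.subtype _)
        (fun c _ => (hX c).symm) (fun c _ => (hCol c).symm) h) subset_rfl hNb)

/-- All rows of a comb, starting from a given set of columns. -/
theorem all_rowsZ (k n : ℕ) : ∃ N₂ : ℕ, ∀ (V : Type) (G : SimpleGraph V)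
    (N q S q₁ ω q₂ Δ Θ : ℕ) (C : ZComb G k N q₂ Δ Θ), ZCst N q S q₁ ω q₂ Δ →
    ∀ D₀ : Finset (Fin N), N₂ ≤ D₀.card →
      ∃ D ⊆ D₀, n ≤ D.card ∧ ∀ m, C.IsFree q S ω m D ∨ C.IsLin q S ω m D := by
  have key : ∀ j n : ℕ, ∃ N₂ : ℕ, ∀ (V : Type) (G : SimpleGraph V)
      (N q S q₁ ω q₂ Δ Θ : ℕ) (C : ZComb G k N q₂ Δ Θ), ZCst N q S q₁ ω q₂ Δ →
      ∀ D₀ : Finset (Fin N), N₂ ≤ D₀.card → ∃ D ⊆ D₀, n ≤ D.card ∧
        ∀ m : Fin k, (m : ℕ) < j → C.IsFree q S ω m D ∨ C.IsLin q S ω m D := by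
    intro j
    induction j with
    | zero =>
      intro n
      exact ⟨n, fun V G N q S q₁ ω q₂ Δ Θ C hc D₀ h =>
        ⟨D₀, subset_rfl, h, fun m hm => absurd hm (Nat.not_lt_zero _)⟩⟩
    | succ j ih =>
      intro n
      obtain ⟨N₁, hN₁⟩ := one_rowZ n
      obtain ⟨N₂, hN₂⟩ := ih (max N₁ n)
      refine ⟨N₂, fun V G N q S q₁ ω q₂ Δ Θ C hc D₀ h => ?_⟩
      obtain ⟨D₁, h1, h2, h3⟩ := hN₂ V G N q S q₁ ω q₂ Δ Θ C hc D₀ h
      rcases Nat.lt_or_ge j k with hj | hj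
      · obtain ⟨D, h4, h5, h6⟩ := hN₁ V G k N q S q₁ ω q₂ Δ Θ C hc ⟨j, hj⟩ D₁
          ((le_max_left _ _).trans h2)
        refine ⟨D, h4.trans h1, h5, fun m hm => ?_⟩
        rcases Nat.lt_succ_iff_lt_or_eq.1 hm with h7 | h7
        · exact C.fl_subset m h4 (h3 m h7)
        · have h8 : m = ⟨j, hj⟩ := Fin.ext h7
          rw [h8]
          exact h6
      · exact ⟨D₁, h1, (le_max_right _ _).trans h2, fun m hm => h3 m (m.2.trans_le hj)⟩
  obtain ⟨N₂, hN₂⟩ := key k n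
  refine ⟨N₂, fun V G N q S q₁ ω q₂ Δ Θ C hc D₀ h => ?_⟩
  obtain ⟨D, h1, h2, h3⟩ := hN₂ V G N q S q₁ ω q₂ Δ Θ C hc D₀ h
  exact ⟨D, h1, h2, fun m => h3 m m.2⟩

/-- The neighbourhoods of the zones of two rows are far apart. -/
lemma ZComb.nb_far {V : Type} {G : SimpleGraph V} {k N q S q₁ ω q₂ Δ Θ : ℕ}
    (C : ZComb G k N q₂ Δ Θ) (hc : ZCst N q S q₁ ω q₂ Δ) {m m' : Fin k} (h : m ≠ m') :
    Far G q (nbhd G (ω + S) (C.Zn m)) (nbhd G (ω + S) (C.Zn m')) :=
  ((C.zn_far hc.hΔ h).mono (m := q + (ω + S) + (ω + S)) (by have := hc.hq₂; omega) subset_rfl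
    subset_rfl).nbhd

/-- Free rows give a fat complete graph. -/
theorem freeZ {V : Type} {G : SimpleGraph V} {k N q S q₁ ω q₂ Δ Θ t : ℕ}
    (C : ZComb G k N q₂ Δ Θ) (hc : ZCst N q S q₁ ω q₂ Δ) (M : Fin t → Fin k)
    (hM : Function.Injective M) (D : Finset (Fin N)) (e : Sym2 (Fin t) → Fin N)
    (he : Function.Injective e) (heD : ∀ s, e s ∈ D) (hfree : ∀ a, C.IsFree q S ω (M a) D) :
    ∃ B P, IsFatMinor G (⊤ : SimpleGraph (Fin t)) q B P := by
  have hfree' : ∀ a, Free G q (C.x (M a)) C.Col (nbhd G (ω + S) (C.Zn (M a))) D := hfree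
  unfold Free at hfree'
  choose Z A hZne hZc hZN hA hAf using hfree'
  have hc2 := hc.hΔ
  have hc3 := hc.hq₂
  have htΘ : ∀ m, C.t m ≤ Θ := fun m => (C.zone m).2.trans (C.hi_le m)
  have hBN : ∀ a, (Z a ∪ ⋃ s ∈ {s : Sym2 (Fin t) | a ∈ s}, A a (e s)) ⊆
      nbhd G (ω + S) (C.Zn (M a)) := by
    intro a
    refine Set.union_subset (hZN a) (Set.iUnion₂_subset fun s _ => ?_)
    exact (hA a (e s) (heD s)).2.2.1
  refine mkFat ⊤ q (fun a => Z a ∪ ⋃ s ∈ {s : Sym2 (Fin t) | a ∈ s}, A a (e s))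
    (fun s => C.Col (e s)) (fun a => (hZne a).mono Set.subset_union_left) (fun a => ?_) ?_ ?_ ?_ ?_
  · exact conn_iUnion (hZne a) (fun s => A a (e s)) _ (hZc a) fun s _ => (hA a (e s) (heD s)).1
  · intro s _
    induction s with
    | _ a b =>
      refine ⟨a, b, rfl, C.x (M a) (e s(a, b)), Or.inr ?_, C.x (M b) (e s(a, b)), Or.inr ?_, ?_⟩
      · exact Set.mem_iUnion₂.2 ⟨s(a, b), Sym2.mem_mk_left a b, (hA a _ (heD _)).2.1⟩
      · exact Set.mem_iUnion₂.2 ⟨s(a, b), Sym2.mem_mk_right a b, (hA b _ (heD _)).2.1⟩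
      · have ha := htΘ (M a)
        have hb := htΘ (M b)
        rcases le_total (C.t (M a)) (C.t (M b)) with h | h
        · obtain ⟨w, -, hw⟩ := seq_walk (C.col (e s(a, b))) h
            fun n _ hn => C.col_adj _ n (by omega)
          refine ⟨w, fun z hz => ?_⟩
          obtain ⟨n, -, h2, h3⟩ := hw z hz
          exact ⟨n, by omega, h3⟩
        · obtain ⟨w, -, hw⟩ := seq_walk (C.col (e s(a, b))) h
            fun n _ hn => C.col_adj _ n (by omega)
          refine ⟨w.reverse, fun z hz => ?_⟩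
          have hz' : z ∈ w.support := by
            have h1 := SimpleGraph.Walk.support_reverse w
            have h2 : z ∈ w.support.reverse := h1 ▸ hz
            exact List.mem_reverse.1 h2
          obtain ⟨n, -, h2, h3⟩ := hw z hz'
          exact ⟨n, by omega, h3⟩
  · intro a b hab
    exact (C.nb_far hc fun h => hab (hM h)).mono le_rfl (hBN a) (hBN b)
  · rintro s _ s' _ hss x hx y hy w
    have h2 := C.col_far' (fun h => hss (he h)) x hx y hy w
    omega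
  · rintro s _ a ha x hx y (hy | hy) w
    · exact (hA a (e s) (heD s)).2.2.2.symm x hx y hy w
    · obtain ⟨s', hs', hy⟩ := Set.mem_iUnion₂.1 hy
      have hs2 : a ∈ s' := hs'
      have hne : e s' ≠ e s := by
        intro h
        rw [he h] at hs2
        exact ha hs2
      exact (hAf a (e s') (heD s') (e s) (heD s) hne).symm x hx y hy w

end Pool.Agent.MP_fd1949_A
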