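import Mathlib
import Pool.Agent.Lib.MP_fd1949_P.MkFat
import Pool.Agent.Lib.MP_fd1949_C.Defs
import Pool.Agent.Lib.MP_fd1949_A.RowsZ

/-!
# Linear rows in the three pages (combs with zones) give a fat book
-/

namespace Pool.Agent.MP_fd1949_A

open Pool.Agent.MP_fd1949_co Pool.Agent.MP_fd1949_P Pool.Agent.MP_fd1949_C

/-- Three combs with zones (pages) whose columns are glued at sets `J c`: the set `J c` contains the
ends `col c 0` of the columns `c` of all three pages. The pages are far apart. -/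
structure BookZ {V : Type} (G : SimpleGraph V) (k N q S ω q₂ Δ : ℕ) (Θ : Fin 3 → ℕ) where
  C : ∀ p : Fin 3, ZComb G k N q₂ Δ (Θ p)
  J : Fin N → Set V
  connJ : ∀ c, Conn G (J c)
  memJ : ∀ p c, (C p).col c 0 ∈ J c
  low : ∀ p m, q ≤ (C p).lo m
  farJJ : ∀ c c', c ≠ c' → Far G q (J c) (J c')
  farJR : ∀ p m c, Far G q (J c) (nbhd G (ω + S) ((C p).Zn m))
  farJC : ∀ p c c', c ≠ c' → Far G q (J c) ((C p).Col c')
  farJV : ∀ p c n, q ≤ n → n ≤ Θ p → Far G q (J c) {(C p).col c n}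
  farRR : ∀ p p' m m', p ≠ p' → Far G q (nbhd G (ω + S) ((C p).Zn m))
    (nbhd G (ω + S) ((C p').Zn m'))
  farRC : ∀ p p' m c, p ≠ p' → Far G q (nbhd G (ω + S) ((C p).Zn m)) ((C p').Col c)
  farCC : ∀ p p' c c', p ≠ p' → Far G q ((C p).Col c) ((C p').Col c')

/-- A chain of connected sets, consecutive ones meet. -/
private theorem bookFatZ_chain {V : Type} {G : SimpleGraph V} (F : ℕ → Set V) {a b : ℕ}
    (hab : a ≤ b) (hc : ∀ j, a ≤ j → j ≤ b → Conn G (F j))
    (hm : ∀ j, a ≤ j → j < b → (F j ∩ F (j + 1)).Nonempty) :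
    ∀ x ∈ F a, ∀ y ∈ F b, ∃ w : G.Walk x y, ∀ z ∈ w.support, ∃ j, a ≤ j ∧ j ≤ b ∧ z ∈ F j := by
  induction b, hab using Nat.le_induction with
  | base =>
    intro x hx y hy
    obtain ⟨w, hw⟩ := hc a le_rfl le_rfl x hx y hy
    exact ⟨w, fun z hz => ⟨a, le_rfl, le_rfl, hw z hz⟩⟩
  | succ b hab ih =>
    intro x hx y hy
    obtain ⟨u, hu1, hu2⟩ := hm b hab (by omega)
    obtain ⟨w, hw⟩ := ih (fun j h1 h2 => hc j h1 (by omega)) (fun j h1 h2 => hm j h1 (by omega))
      x hx u hu1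
    obtain ⟨w', hw'⟩ := hc (b + 1) (by omega) le_rfl u hu2 y hy
    refine ⟨w.append w', fun z hz => ?_⟩
    rcases (SimpleGraph.Walk.mem_support_append_iff _ _).1 hz with hz | hz
    · obtain ⟨j, h1, h2, h3⟩ := hw z hz
      exact ⟨j, h1, by omega, h3⟩
    · exact ⟨b + 1, by omega, le_rfl, hw' z hz⟩

/-- The edges of the book are horizontal, vertical or go to the spine. -/
private theorem bookFatZ_edge {k M : ℕ} {s : Sym2 ((Fin 3 × Fin k × Fin M) ⊕ Fin M)}
    (hs : s ∈ (bookG k M).edgeSet) :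
    (∃ (p : Fin 3) (a : Fin k) (b b' : Fin M), b.val + 1 = b'.val ∧
        s = s(Sum.inl (p, a, b), Sum.inl (p, a, b'))) ∨
      (∃ (p : Fin 3) (a a' : Fin k) (b : Fin M), a.val + 1 = a'.val ∧
        s = s(Sum.inl (p, a, b), Sum.inl (p, a', b))) ∨
      ∃ (p : Fin 3) (a : Fin k) (b : Fin M), a.val + 1 = k ∧
        s = s(Sum.inl (p, a, b), Sum.inr b) := by
  induction s using Sym2.ind with
  | _ u v =>
    rw [SimpleGraph.mem_edgeSet] at hs
    rcases u with ⟨p, a, b⟩ | c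
    · rcases v with ⟨p', a', b'⟩ | d
      · obtain ⟨h1, h2⟩ := hs
        dsimp only at h1 h2
        subst h1
        rcases h2 with ⟨h2, h3 | h3⟩ | ⟨h2, h3 | h3⟩
        · subst h2
          exact Or.inl ⟨p, a, b, b', h3, rfl⟩
        · subst h2
          exact Or.inl ⟨p, a, b', b, h3, Sym2.eq_swap⟩
        · subst h2
          exact Or.inr (Or.inl ⟨p, a, a', b, h3, rfl⟩)
        · subst h2
          exact Or.inr (Or.inl ⟨p, a', a, b, h3, Sym2.eq_swap⟩)
      · obtain ⟨h1, h2⟩ := hs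
        dsimp only at h1 h2
        subst h2
        exact Or.inr (Or.inr ⟨p, a, b, h1, rfl⟩)
    · rcases v with ⟨p', a', b'⟩ | d
      · obtain ⟨h1, h2⟩ := hs
        dsimp only at h1 h2
        subst h2
        exact Or.inr (Or.inr ⟨p', a', b', h1, Sym2.eq_swap⟩)
      · exact hs.elim

/-- The edge `s` is the vertical edge (or the edge to the spine) below `(p, a, b)`; its part of the
column starts at the height `L`. -/
private def bookFatZV {k M : ℕ} (hi : Fin 3 → Fin k → ℕ)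
    (s : Sym2 ((Fin 3 × Fin k × Fin M) ⊕ Fin M)) (p : Fin 3) (a : Fin k) (b : Fin M) (L : ℕ) :
    Prop :=
  (∃ a' : Fin k, a.val + 1 = a'.val ∧ s = s(Sum.inl (p, a, b), Sum.inl (p, a', b)) ∧
      L = hi p a') ∨ (a.val + 1 = k ∧ s = s(Sum.inl (p, a, b), Sum.inr b) ∧ L = 0)

private theorem bookFatZV_uniq {k M : ℕ} {hi : Fin 3 → Fin k → ℕ}
    {s s' : Sym2 ((Fin 3 × Fin k × Fin M) ⊕ Fin M)} {p : Fin 3} {a : Fin k} {b : Fin M} {L L' : ℕ}
    (h : bookFatZV hi s p a b L) (h' : bookFatZV hi s' p a b L') : s = s' := by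
  rcases h with ⟨a', h1, rfl, -⟩ | ⟨h1, rfl, -⟩
  · rcases h' with ⟨a'', h2, rfl, -⟩ | ⟨h2, rfl, -⟩
    · have : a' = a'' := Fin.ext (by omega)
      rw [this]
    · have := a'.2
      omega
  · rcases h' with ⟨a'', h2, rfl, -⟩ | ⟨h2, rfl, -⟩
    · have := a''.2
      omega
    · rfl

private theorem bookFatZV_mem {k M : ℕ} {hi : Fin 3 → Fin k → ℕ}
    {s : Sym2 ((Fin 3 × Fin k × Fin M) ⊕ Fin M)} {p : Fin 3} {a : Fin k} {b : Fin M} {L : ℕ}
    (h : bookFatZV hi s p a b L) : Sum.inl (p, a, b) ∈ s := by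
  rcases h with ⟨a', h1, rfl, -⟩ | ⟨h1, rfl, -⟩
  · exact Sym2.mem_mk_left _ _
  · exact Sym2.mem_mk_left _ _

private theorem bookFatZV_spine {k M q : ℕ} {hi : Fin 3 → Fin k → ℕ} (hq : ∀ p a, q ≤ hi p a)
    {s : Sym2 ((Fin 3 × Fin k × Fin M) ⊕ Fin M)} {p : Fin 3} {a : Fin k} {b : Fin M} {L : ℕ}
    (h : bookFatZV hi s p a b L) (hb : Sum.inr b ∉ s) : q ≤ L := by
  rcases h with ⟨a', h1, rfl, h2⟩ | ⟨h1, rfl, -⟩
  · rw [h2]
    exact hq p a'
  · exact absurd (Sym2.mem_mk_right _ _) hb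

private theorem bookFatZV_lo {k M : ℕ} {hi : Fin 3 → Fin k → ℕ}
    (hτ : ∀ p, ∀ a a' : Fin k, a ≤ a' → hi p a' ≤ hi p a)
    {s : Sym2 ((Fin 3 × Fin k × Fin M) ⊕ Fin M)} {p : Fin 3} {a : Fin k} {b : Fin M} {L : ℕ}
    (h : bookFatZV hi s p a b L) (a2 : Fin k) (ha : a < a2) : hi p a2 ≤ L := by
  rw [Fin.lt_def] at ha
  rcases h with ⟨a', h1, rfl, h2⟩ | ⟨h1, rfl, -⟩
  · have := hτ p a' a2 (by rw [Fin.le_def]; omega)
    omega
  · have := a2.2
    omega

private theorem bookFatZV_lo' {k M : ℕ} {hi : Fin 3 → Fin k → ℕ} {η : ℕ}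
    {s : Sym2 ((Fin 3 × Fin k × Fin M) ⊕ Fin M)} {p : Fin 3} {a : Fin k} {b : Fin M} {L : ℕ}
    (hτ : ∀ a a' : Fin k, a < a' → hi p a' + η ≤ hi p a)
    (h : bookFatZV hi s p a b L) (a2 : Fin k) (ha : a < a2) (hs : Sum.inl (p, a2, b) ∉ s) :
    hi p a2 + η ≤ L := by
  rw [Fin.lt_def] at ha
  rcases h with ⟨a', h1, rfl, h2⟩ | ⟨h1, rfl, -⟩
  · have hne : a'.val ≠ a2.val := by
      intro h3
      have h4 : a' = a2 := Fin.ext h3
      rw [h4] at hs
      exact hs (Sym2.mem_mk_right _ _)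
    have := hτ a' a2 (by rw [Fin.lt_def]; omega)
    omega
  · have := a2.2
    omega

/-- The analogue of `bookFat` for combs with zones. -/
theorem bookFatZ {V : Type} {G : SimpleGraph V} {l N q S q₁ ω q₂ Δ k M : ℕ} {Θ : Fin 3 → ℕ}
    (𝔅 : BookZ G l N q S ω q₂ Δ Θ) (hc : ZCst N q S q₁ ω q₂ Δ)
    (Mr : Fin 3 → Fin k → Fin l) (hM : ∀ p, StrictMono (Mr p)) (e : Fin M → Fin N)
    (he : Function.Injective e)
    (hlin : ∀ p a, LinSeq G q S ((𝔅.C p).tube ω (Mr p a)) (𝔅.C p).Col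
      (nbhd G (ω + S) ((𝔅.C p).Zn (Mr p a))) e) :
    ∃ B P, IsFatMinor G (bookG k M) q B P := by
  choose P F J hF hmt hfar hJ hJm hcol using hlin
  obtain ⟨hq, hS, hq₁, hω, hq₂, hΔ⟩ := id hc
  -- heights
  have hgap : ∀ p, ∀ a a' : Fin k, a < a' →
      (𝔅.C p).hi (Mr p a') + q₂ < (𝔅.C p).lo (Mr p a) := fun p a a' h =>
    (𝔅.C p).gap _ _ (hM p h)
  have hzn : ∀ p, ∀ a : Fin k, (𝔅.C p).lo (Mr p a) + q₂ ≤ (𝔅.C p).hi (Mr p a) := fun p a =>
    (((𝔅.C p).zone (Mr p a)).1).trans ((𝔅.C p).zone (Mr p a)).2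
  have hhi : ∀ p, ∀ a : Fin k, (𝔅.C p).hi (Mr p a) ≤ Θ p := fun p a => (𝔅.C p).hi_le _
  have hJm' : ∀ p a (b b' : Fin M), b ≤ b' → J p a b ≤ J p a b' := by
    intro p a b b' h
    rcases h.lt_or_eq with h | h
    · have := hJm p a b b' h
      omega
    · rw [h]
  have hlt : ∀ b b' : Fin M, b.val + 1 = b'.val → ∀ b2 : Fin M, b2 ≤ b ∨ b' ≤ b2 := by
    intro b b' h b2
    by_cases h1 : b2 ≤ b
    · exact Or.inl h1
    · right
      rw [Fin.le_def] at h1 ⊢
      omega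
  -- different rows
  have hrow : ∀ p, ∀ a a2 : Fin k, a ≠ a2 → ∀ j ≤ P p a, ∀ j2 ≤ P p a2,
      Far G q (F p a j) (F p a2 j2) := by
    intro p a a2 hne j hj j2 hj2
    exact ((𝔅.C p).nb_far hc ((hM p).injective.ne hne)).mono le_rfl (hF p a j hj).2
      (hF p a2 j2 hj2).2
  -- same row
  have hsame : ∀ p a, ∀ j ≤ P p a, ∀ j2 ≤ P p a, j + 2 ≤ j2 ∨ j2 + 2 ≤ j →
      Far G q (F p a j) (F p a j2) := by
    intro p a j hj j2 hj2 h
    rcases h with h | h
    · exact hfar p a j j2 h hj2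
    · exact (hfar p a j2 j h hj).symm
  have hb' : ∀ p a (b b' : Fin M), b.val + 1 = b'.val → ∀ j, J p a b < j → j < J p a b' →
      j ≤ P p a := by
    intro p a b b' _ j _ h2
    have := (hJ p a b').1
    omega
  -- different pages
  have hpRR : ∀ p p2, p ≠ p2 → ∀ a a2 j j2, j ≤ P p a → j2 ≤ P p2 a2 →
      Far G q (F p a j) (F p2 a2 j2) := fun p p2 hne a a2 j j2 hj hj2 =>
    (𝔅.farRR p p2 (Mr p a) (Mr p2 a2) hne).mono le_rfl (hF p a j hj).2 (hF p2 a2 j2 hj2).2
  have hpRC : ∀ p p2, p ≠ p2 → ∀ a b j, j ≤ P p a → Far G q (F p a j) ((𝔅.C p2).Col (e b)) :=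
    fun p p2 hne a b j hj =>
    (𝔅.farRC p p2 (Mr p a) (e b) hne).mono le_rfl (hF p a j hj).2 subset_rfl
  have hpJR : ∀ b p a j, j ≤ P p a → Far G q (𝔅.J (e b)) (F p a j) := fun b p a j hj =>
    (𝔅.farJR p (Mr p a) (e b)).mono le_rfl subset_rfl (hF p a j hj).2
  -- horizontal against column
  have hHV : ∀ p a (b b' : Fin M), b.val + 1 = b'.val → ∀ j, J p a b < j → j < J p a b' →
      ∀ p2 b2, Far G q (F p a j) ((𝔅.C p2).Col (e b2)) := by
    intro p a b b' hbb j h1 h2 p2 b2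
    by_cases hp : p = p2
    · subst hp
      refine hcol p a b2 j (hb' p a b b' hbb j h1 h2) ?_
      rcases hlt b b' hbb b2 with h | h
      · have := hJm' p a _ _ h
        omega
      · have := hJm' p a _ _ h
        omega
    · exact hpRC p p2 hp a b2 j (hb' p a b b' hbb j h1 h2)
  -- two horizontal or branch sets
  have hFF : ∀ p a p2 a2 j j2, j ≤ P p a → j2 ≤ P p2 a2 →
      (p = p2 → a = a2 → j + 2 ≤ j2 ∨ j2 + 2 ≤ j) → Far G q (F p a j) (F p2 a2 j2) := by
    intro p a p2 a2 j j2 hj hj2 h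
    by_cases hp : p = p2
    · subst hp
      by_cases ha : a = a2
      · subst ha
        exact hsame p a j hj j2 hj2 (h rfl rfl)
      · exact hrow p a a2 ha j hj j2 hj2
    · exact hpRR p p2 hp a a2 j j2 hj hj2
  set hi : Fin 3 → Fin k → ℕ := fun p a => (𝔅.C p).hi (Mr p a) with hhidef
  set lo : Fin 3 → Fin k → ℕ := fun p a => (𝔅.C p).lo (Mr p a) with hlodef
  have hgap : ∀ p, ∀ a a' : Fin k, a < a' → hi p a' + q₂ < lo p a := hgap
  have hzn : ∀ p a, lo p a + q₂ ≤ hi p a := hzn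
  have hhi : ∀ p a, hi p a ≤ Θ p := hhi
  have hgap2 : ∀ p, ∀ a a' : Fin k, a < a' → hi p a' + q₂ ≤ hi p a := by
    intro p a a' h
    have h1 := hgap p a a' h
    have h2 := hzn p a
    omega
  have hgap' : ∀ p, ∀ a a' : Fin k, a ≤ a' → hi p a' ≤ hi p a := by
    intro p a a' h
    rcases h.lt_or_eq with h | h
    · have := hgap2 p a a' h
      omega
    · rw [h]
  have hlowq : ∀ p a, q ≤ hi p a := by
    intro p a
    have h1 := hzn p a
    have h2 : q ≤ lo p a := 𝔅.low p (Mr p a)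
    omega
  refine mkFat (bookG k M) q
    (fun v => Sum.elim (fun u => F u.1 u.2.1 (J u.1 u.2.1 u.2.2)) (fun b => 𝔅.J (e b)) v)
    (fun s => {z | ∃ (p : Fin 3) (a : Fin k) (b b' : Fin M), b.val + 1 = b'.val ∧
        s = s(Sum.inl (p, a, b), Sum.inl (p, a, b')) ∧
        ∃ j, J p a b < j ∧ j < J p a b' ∧ z ∈ F p a j} ∪
      {z | ∃ (p : Fin 3) (a : Fin k) (b : Fin M) (L : ℕ), bookFatZV hi s p a b L ∧
        ∃ n, L ≤ n ∧ n ≤ lo p a ∧ z = (𝔅.C p).col (e b) n})
    ?_ ?_ ?_ ?_ ?_ ?_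
  · rintro (⟨p, a, b⟩ | b)
    · exact ⟨_, (hJ p a b).2.1 (subset_nbhd _ _ ((𝔅.C p).x_mem_seg (Mr p a) (e b)))⟩
    · exact ⟨_, 𝔅.memJ 0 (e b)⟩
  · rintro (⟨p, a, b⟩ | b)
    · exact (hF p a _ (hJ p a b).1).1
    · exact 𝔅.connJ (e b)
  · intro s hs
    rcases bookFatZ_edge hs with ⟨p, a, b, b', hbb, rfl⟩ | ⟨p, a, a', b, haa, rfl⟩ |
      ⟨p, a, b, hak, rfl⟩
    · have hlt' : b < b' := by
        rw [Fin.lt_def]
        omega
      have h1 := hJm p a b b' hlt'
      have h2 := (hJ p a b').1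
      obtain ⟨x, hx1, hx2⟩ := hmt p a (J p a b) (by omega)
      obtain ⟨y, hy1, hy2⟩ := hmt p a (J p a b' - 1) (by omega)
      rw [Nat.sub_add_cancel (by omega)] at hy2
      obtain ⟨w, hw⟩ := bookFatZ_chain (F p a) (a := J p a b + 1) (b := J p a b' - 1) (by omega)
        (fun j _ h4 => (hF p a j (by omega)).1) (fun j _ h4 => hmt p a j (by omega)) x hx2 y hy1
      refine ⟨Sum.inl (p, a, b), Sum.inl (p, a, b'), rfl, x, hx1, y, hy2, w, fun z hz => ?_⟩
      obtain ⟨j, h3, h4, h5⟩ := hw z hz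
      exact Or.inl ⟨p, a, b, b', hbb, rfl, j, by omega, by omega, h5⟩
    · have hlt' : a < a' := by
        rw [Fin.lt_def]
        omega
      have h1 := hgap p a a' hlt'
      have h2 := hzn p a
      have h2' := hzn p a'
      have h3 := hhi p a
      have hadj : ∀ n, n < lo p a →
          G.Adj ((𝔅.C p).col (e b) n) ((𝔅.C p).col (e b) (n + 1)) :=
        fun n hn => (𝔅.C p).col_adj (e b) n (by omega)
      obtain ⟨w, -, hw⟩ := seq_walk ((𝔅.C p).col (e b)) (a := hi p a')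
        (b := lo p a) (by omega) (fun n _ hn => hadj n (by omega))
      have hx : (𝔅.C p).col (e b) (hi p a') ∈ F p a' (J p a' b) :=
        (hJ p a' b).2.1 (subset_nbhd _ _ ⟨hi p a', by show lo p a' ≤ hi p a'; omega, le_rfl, rfl⟩)
      have hy : (𝔅.C p).col (e b) (lo p a) ∈ F p a (J p a b) :=
        (hJ p a b).2.1 (subset_nbhd _ _ ⟨lo p a, le_rfl, by show lo p a ≤ hi p a; omega, rfl⟩)
      refine ⟨Sum.inl (p, a', b), Sum.inl (p, a, b), Sym2.eq_swap, _, hx, _, hy, w,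
        fun z hz => ?_⟩
      obtain ⟨n, h3, h4, h5⟩ := hw z hz
      exact Or.inr ⟨p, a, b, _, Or.inl ⟨a', haa, rfl, rfl⟩, n, h3, h4, h5⟩
    · have h2 := hzn p a
      have h3 := hhi p a
      have hadj : ∀ n, n < lo p a →
          G.Adj ((𝔅.C p).col (e b) n) ((𝔅.C p).col (e b) (n + 1)) :=
        fun n hn => (𝔅.C p).col_adj (e b) n (by omega)
      obtain ⟨w, -, hw⟩ := seq_walk ((𝔅.C p).col (e b)) (a := 0)
        (b := lo p a) (by omega) (fun n _ hn => hadj n (by omega))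
      have hx : (𝔅.C p).col (e b) 0 ∈ 𝔅.J (e b) := 𝔅.memJ p (e b)
      have hy : (𝔅.C p).col (e b) (lo p a) ∈ F p a (J p a b) :=
        (hJ p a b).2.1 (subset_nbhd _ _ ⟨lo p a, le_rfl, by show lo p a ≤ hi p a; omega, rfl⟩)
      refine ⟨Sum.inr b, Sum.inl (p, a, b), Sym2.eq_swap, _, hx, _, hy, w, fun z hz => ?_⟩
      obtain ⟨n, h3, h4, h5⟩ := hw z hz
      exact Or.inr ⟨p, a, b, _, Or.inr ⟨hak, rfl, rfl⟩, n, h3, h4, h5⟩
  · rintro (⟨p, a, b⟩ | b) (⟨p2, a2, b2⟩ | b2) hne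
    · dsimp only [Sum.elim_inl]
      refine hFF p a p2 a2 _ _ (hJ p a b).1 (hJ p2 a2 b2).1 ?_
      rintro rfl rfl
      have hb : b ≠ b2 := fun h => hne (by rw [h])
      rcases lt_or_gt_of_ne hb with h | h
      · exact Or.inl (hJm p a _ _ h)
      · exact Or.inr (hJm p a _ _ h)
    · exact (hpJR b2 p a _ (hJ p a b).1).symm
    · exact hpJR b p2 a2 _ (hJ p2 a2 b2).1
    · exact 𝔅.farJJ _ _ (he.ne fun h => hne (by rw [h]))
  · intro s _ s' _ hss
    rintro z (⟨p, a, b, b', hbb, rfl, j, hj1, hj2, hz⟩ | ⟨p, a, b, L, hV, n, hn1, hn2, rfl⟩)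
      z' (⟨p2, a2, b2, b2', hbb2, rfl, j2, hj3, hj4, hz'⟩ |
        ⟨p2, a2, b2, L2, hV2, n2, hn3, hn4, rfl⟩)
    · have hjp := hb' p a b b' hbb j hj1 hj2
      have hjp2 := hb' p2 a2 b2 b2' hbb2 j2 hj3 hj4
      refine hFF p a p2 a2 j j2 hjp hjp2 ?_ z hz z' hz'
      rintro rfl rfl
      by_cases hb : b = b2
      · subst hb
        have : b' = b2' := Fin.ext (by omega)
        subst this
        exact absurd rfl hss
      · rcases hlt b b' hbb b2 with h | h
        · right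
          have h1 : b2' ≤ b := by
            rw [Fin.le_def] at h ⊢
            have h2 : b2.val ≠ b.val := fun h3 => hb (Fin.ext h3.symm)
            omega
          have := hJm' p a _ _ h1
          omega
        · left
          have := hJm' p a _ _ h
          omega
    · have h2 := hzn p2 a2
      have h3 := hhi p2 a2
      exact hHV p a b b' hbb j hj1 hj2 p2 b2 z hz _ ⟨n2, by omega, rfl⟩
    · have h2 := hzn p a
      have h3 := hhi p a
      exact (hHV p2 a2 b2 b2' hbb2 j2 hj3 hj4 p b).symm _ ⟨n, by omega, rfl⟩ z' hz'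
    · have h2 := hzn p a
      have h2' := hhi p a
      have h3 := hzn p2 a2
      have h3' := hhi p2 a2
      by_cases hp : p = p2
      · subst hp
        intro w
        by_cases hb : b = b2
        · subst hb
          rcases lt_trichotomy a a2 with h | h | h
          · have h4 : hi p a2 ≤ L := bookFatZV_lo hgap' hV a2 h
            have h5 := (𝔅.C p).col_geo (e b) n2 n (by omega) (by omega) w.reverse
            rw [SimpleGraph.Walk.length_reverse] at h5
            omega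
          · subst h
            exact absurd (bookFatZV_uniq hV hV2) hss
          · have h4 : hi p a ≤ L2 := bookFatZV_lo hgap' hV2 a h
            have h5 := (𝔅.C p).col_geo (e b) n n2 (by omega) (by omega) w
            omega
        · have h4 := (𝔅.C p).col_far (e b) (e b2) (he.ne hb) n n2 (by omega) (by omega) w
          omega
      · exact 𝔅.farCC p p2 (e b) (e b2) hp _ ⟨n, by omega, rfl⟩ _ ⟨n2, by omega, rfl⟩
  · rintro s _ v hv z
      (⟨p, a, b, b', hbb, rfl, j, hj1, hj2, hz⟩ | ⟨p, a, b, L, hV, n, hn1, hn2, rfl⟩) z' hz'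
    · have hjp := hb' p a b b' hbb j hj1 hj2
      rcases v with ⟨p2, a2, b2⟩ | b2
      · refine hFF p a p2 a2 j _ hjp (hJ p2 a2 b2).1 ?_ z hz z' hz'
        rintro rfl rfl
        have hn1 : b2 ≠ b := by
          rintro rfl
          exact hv (Sym2.mem_mk_left _ _)
        have hn2 : b2 ≠ b' := by
          rintro rfl
          exact hv (Sym2.mem_mk_right _ _)
        rcases hlt b b' hbb b2 with h | h
        · right
          have := hJm p a _ _ (lt_of_le_of_ne h hn1)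
          omega
        · left
          have := hJm p a _ _ (lt_of_le_of_ne h hn2.symm)
          omega
      · exact (hpJR b2 p a j hjp).symm z hz z' hz'
    · have h2 := hzn p a
      have h2' := hhi p a
      rcases v with ⟨p2, a2, b2⟩ | b2
      · have hz2 : z' ∈ F p2 a2 (J p2 a2 b2) := hz'
        by_cases hp : p = p2
        · subst hp
          have h3 := hzn p a2
          have h3' := hhi p a2
          by_cases hb : b = b2
          · subst hb
            have hn3 : a2 ≠ a := by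
              rintro rfl
              exact hv (bookFatZV_mem hV)
            obtain ⟨y, ⟨_, ⟨n2, hn4, hn5, rfl⟩, hyc⟩, hyz⟩ := (hJ p a2 b).2.2 hz2
            replace hn4 : lo p a2 ≤ n2 := hn4
            replace hn5 : n2 ≤ hi p a2 := hn5
            intro w
            by_contra hlt2
            have hw : NearN G w.length ((𝔅.C p).col (e b) n) z' := ⟨w, le_rfl⟩
            obtain ⟨w', hw'⟩ := (hw.trans hyz.symm).trans hyc.symm
            rcases lt_or_gt_of_ne hn3 with h | h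
            · have h4 := hgap p _ _ h
              have h5 := (𝔅.C p).col_geo (e b) n n2 (by omega) (by omega) w'
              omega
            · have h4 : hi p a2 + q₂ ≤ L := bookFatZV_lo' (hgap2 p) hV a2 h hv
              have h5 := (𝔅.C p).col_geo (e b) n2 n (by omega) (by omega)
                w'.reverse
              rw [SimpleGraph.Walk.length_reverse] at h5
              omega
          · refine (hcol p a2 b (J p a2 b2) (hJ p a2 b2).1 ?_).symm _ ⟨n, by omega, rfl⟩ z' hz2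
            rcases lt_or_gt_of_ne hb with h | h
            · have := hJm p a2 _ _ h
              omega
            · have := hJm p a2 _ _ h
              omega
        · exact (hpRC p2 p (Ne.symm hp) a2 b _ (hJ p2 a2 b2).1).symm _ ⟨n, by omega, rfl⟩ z' hz2
      · have hz2 : z' ∈ 𝔅.J (e b2) := hz'
        by_cases hb : b = b2
        · subst hb
          have h3 := bookFatZV_spine hlowq hV hv
          exact (𝔅.farJV p (e b) n (by omega) (by omega)).symm _ rfl z' hz2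
        · exact (𝔅.farJC p (e b2) (e b) (he.ne (Ne.symm hb))).symm _ ⟨n, by omega, rfl⟩ z' hz2

end Pool.Agent.MP_fd1949_A
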