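import Mathlib
import Pool.Agent.Lib.MP_fd1949_P.LinRev
import Pool.Agent.Lib.MP_fd1949_P.Comp
import Pool.Agent.Lib.MP_fd1949_C.BookMin
import Pool.Agent.Lib.MP_fd1949_A.BookZ

/-!
# Three glued pages (combs with zones) give a fat complete graph
-/

namespace Pool.Agent.MP_fd1949_A

open Pool.Agent.MP_fd1949_co Pool.Agent.MP_fd1949_P Pool.Agent.MP_fd1949_C

/-- Three pages with many columns give a fat complete graph. -/
theorem book_allZ (t : ℕ) : ∃ N₂ : ℕ, ∀ (V : Type) (G : SimpleGraph V) (N q S q₁ ω q₂ Δ : ℕ)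
    (Θ : Fin 3 → ℕ) (_ : BookZ G (2 * t) N q S ω q₂ Δ Θ),
    ZCst N q S q₁ ω q₂ Δ → N₂ ≤ N →
    ∃ B P, IsFatMinor G (⊤ : SimpleGraph (Fin t)) q B P := by
  classical
  obtain ⟨M, β, hβ1, hβ2, hβ3⟩ := book_top t
  obtain ⟨n₁, hn₁⟩ := align (3 * t) M
  set n := max n₁ (Fintype.card (Sym2 (Fin t))) with hn
  obtain ⟨Na, hNa⟩ := all_rowsZ (2 * t) n
  obtain ⟨Nb, hNb⟩ := all_rowsZ (2 * t) Na
  obtain ⟨Nc, hNc⟩ := all_rowsZ (2 * t) Nb
  refine ⟨Nc, fun V G N q S q₁ ω q₂ Δ Θ 𝔅 hc hN => ?_⟩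
  -- common columns
  obtain ⟨D0, -, hD0, hr0⟩ := hNc V G N q S q₁ ω q₂ Δ (Θ 0) (𝔅.C 0) hc
    Finset.univ (by rw [Finset.card_univ, Fintype.card_fin]; exact hN)
  obtain ⟨D1, hD01, hD1, hr1⟩ := hNb V G N q S q₁ ω q₂ Δ (Θ 1) (𝔅.C 1) hc D0 hD0
  obtain ⟨D, hD12, hD2, hr2⟩ := hNa V G N q S q₁ ω q₂ Δ (Θ 2) (𝔅.C 2) hc D1 hD1
  have hrow : ∀ p m, (𝔅.C p).IsFree q S ω m D ∨ (𝔅.C p).IsLin q S ω m D := by
    intro p m
    fin_cases p
    · exact (𝔅.C 0).fl_subset m (hD12.trans hD01) (hr0 m)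
    · exact (𝔅.C 1).fl_subset m hD12 (hr1 m)
    · exact hr2 m
  have hDn1 : n₁ ≤ D.card := (le_max_left _ _).trans hD2
  have hDn2 : Fintype.card (Sym2 (Fin t)) ≤ D.card := (le_max_right _ _).trans hD2
  by_cases hfr : ∃ p, t ≤ (Finset.univ.filter fun m => (𝔅.C p).IsFree q S ω m D).card
  · obtain ⟨p, hfr⟩ := hfr
    set Mr := (Finset.univ.filter fun m => (𝔅.C p).IsFree q S ω m D).orderEmbOfCardLe hfr
    have hMf : ∀ a, (𝔅.C p).IsFree q S ω (Mr a) D := fun a =>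
      (Finset.mem_filter.1 (Finset.orderEmbOfCardLe_mem _ hfr a)).2
    refine freeZ (𝔅.C p) hc Mr Mr.injective D
      (fun s => D.orderEmbOfCardLe hDn2 (Fintype.equivFin _ s)) ?_ ?_ hMf
    · exact (D.orderEmbOfCardLe hDn2).injective.comp (Fintype.equivFin _).injective
    · exact fun s => Finset.orderEmbOfCardLe_mem _ hDn2 _
  push Not at hfr
  have hcard : ∀ p, t ≤ (Finset.univ.filter fun m => ¬ (𝔅.C p).IsFree q S ω m D).card := by
    intro p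
    have h1 := Finset.card_filter_add_card_filter_not (s := (Finset.univ : Finset (Fin (2 * t))))
      (fun m => (𝔅.C p).IsFree q S ω m D)
    rw [Finset.card_univ, Fintype.card_fin] at h1
    have h2 := hfr p
    omega
  set Mr : ∀ p : Fin 3, Fin t ↪o Fin (2 * t) := fun p =>
    (Finset.univ.filter fun m => ¬ (𝔅.C p).IsFree q S ω m D).orderEmbOfCardLe (hcard p)
    with hMr
  have hMl : ∀ p a, (𝔅.C p).IsLin q S ω (Mr p a) D := fun p a =>
    (hrow p (Mr p a)).resolve_left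
      (Finset.mem_filter.1 (Finset.orderEmbOfCardLe_mem _ (hcard p) a)).2
  choose P F J h1 h2 h3 h4 h5 h6 using hMl
  set ψ : Fin (3 * t) ≃ Fin 3 × Fin t := finProdFinEquiv.symm
  obtain ⟨e, he, heD, hmono⟩ := hn₁ (Fin N) D (fun i => J (ψ i).1 (ψ i).2) hDn1 (by
    intro i c hc' c' hc'' hne heq
    rcases h5 (ψ i).1 (ψ i).2 c hc' c' hc'' hne with h | h <;> omega)
  have hmono' : ∀ p a, StrictMono (J p a ∘ e) ∨ StrictAnti (J p a ∘ e) := by
    intro p a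
    have := hmono (ψ.symm (p, a))
    simpa using this
  have hfat := bookFatZ 𝔅 hc (fun p => Mr p) (fun p => (Mr p).strictMono) e he fun p a =>
    linSeq_of e heD he (P p a) (F p a) (J p a) (h1 p a) (h2 p a) (h3 p a) (h4 p a) (h5 p a)
      (h6 p a) (hmono' p a)
  refine comp β hβ1 hβ2 ?_ hfat
  intro u v huv
  have huv' : u ≠ v := huv
  rcases lt_or_gt_of_ne huv' with h | h
  · exact hβ3 u v h
  · obtain ⟨x, hx, y, hy, hxy⟩ := hβ3 v u h
    exact ⟨y, hy, x, hx, hxy.symm⟩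

end Pool.Agent.MP_fd1949_A
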