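import Mathlib
import Pool.Agent.Lib.MP_fd1949_C.Lift
import Pool.Agent.Lib.MP_fd1949_C.Slab2

/-!
# Almost convex graphs: lifts
-/

namespace Pool.Agent.MP_fd1949_A

open Pool.Agent.MP_fd1949_co Pool.Agent.MP_fd1949_P Pool.Agent.MP_fd1949_C

/-- `f` is the distance to a root (one in every component), `F x` is a geodesic from the root to
`x`, and two points of a sphere around the root at distance at most `i` are joined inside the ball
by a walk of length at most `N i`. -/
structure ACon {V : Type} (G : SimpleGraph V) (N : ℕ → ℕ) (f : V → ℕ) (F : V → ℕ → V) : Prop where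
  base : Combing G 2 0 f F
  conv : ∀ x y i, f x = f y → NearN G i x y →
    ∃ w : G.Walk x y, w.length ≤ N i ∧ ∀ z ∈ w.support, f z ≤ f x
  mono : ∀ i j, i ≤ j → N i ≤ N j

/-- The lift of `Y` to depth `m`: the points joined to the columns of points of `Y` by a walk of
length at most `K` in the ball `f ≤ m`. -/
def liftA {V : Type} (G : SimpleGraph V) (f : V → ℕ) (F : V → ℕ → V) (K : ℕ) (Y : Set V) (m : ℕ) :
    Set V :=
  {p | ∃ y ∈ Y, ∃ w : G.Walk (pt f F y m) p, w.length ≤ K ∧ ∀ z ∈ w.support, f z ≤ m}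

variable {V : Type} {G : SimpleGraph V} {N : ℕ → ℕ} {f : V → ℕ} {F : V → ℕ → V}

lemma mem_liftA (hA : ACon G N f F) {Y : Set V} {K m : ℕ} {y : V} (hy : y ∈ Y) (hm : m ≤ f y) :
    pt f F y m ∈ liftA G f F K Y m := by
  refine ⟨y, hy, .nil, by simp, fun z hz => ?_⟩
  rw [SimpleGraph.Walk.support_nil, List.mem_singleton] at hz
  rw [hz, hA.base.f_pt hm]

lemma liftA_near {Y : Set V} {K m : ℕ} {p : V} (hp : p ∈ liftA G f F K Y m) :
    ∃ y ∈ Y, NearN G K (pt f F y m) p := by
  obtain ⟨y, hy, w, hw, -⟩ := hp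
  exact ⟨y, hy, w, hw⟩

lemma liftA_f (hA : ACon G N f F) {Y : Set V} {K m : ℕ} (hY : ∀ y ∈ Y, m ≤ f y) {p : V}
    (hp : p ∈ liftA G f F K Y m) : f p ≤ m ∧ m ≤ f p + K := by
  obtain ⟨y, hy, w, hw, hs⟩ := hp
  have h1 := hA.base.f_near (⟨w, hw⟩ : NearN G K (pt f F y m) p)
  rw [hA.base.f_pt (hY y hy)] at h1
  exact ⟨hs p w.end_mem_support, h1⟩

/-- The walk of a point of the lift stays in the lift. -/
lemma liftA_walk {Y : Set V} {K m : ℕ} {y p : V} (hy : y ∈ Y) (w : G.Walk (pt f F y m) p)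
    (hw : w.length ≤ K) (hs : ∀ z ∈ w.support, f z ≤ m) :
    ∀ z ∈ w.support, z ∈ liftA G f F K Y m := by
  classical
  intro z hz
  refine ⟨y, hy, w.takeUntil z hz, (w.length_takeUntil_le_length hz).trans hw, fun u hu => ?_⟩
  exact hs u (w.support_takeUntil_subset_support hz hu)

lemma conn_liftA (hA : ACon G N f F) {Y : Set V} {s m b K : ℕ} (hY : JConn G s Y)
    (h : ∀ y ∈ Y, m ≤ f y ∧ f y ≤ b) (hK : N (2 * (b - m) + s) ≤ K) :
    Conn G (liftA G f F K Y m) := by
  have hchain : ∀ x y, x ∈ Y → JChain G s Y x y →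
      ∃ w : G.Walk (pt f F x m) (pt f F y m), ∀ z ∈ w.support, z ∈ liftA G f F K Y m := by
    intro x y hx hxy
    induction hxy with
    | refl =>
      refine ⟨.nil, fun z hz => ?_⟩
      rw [SimpleGraph.Walk.support_nil, List.mem_singleton] at hz
      rw [hz]
      exact mem_liftA hA hx (h x hx).1
    | @tail b' c _ h2 ih =>
      obtain ⟨w, hw⟩ := ih
      obtain ⟨hb, hc, hn⟩ := h2
      have h3 := h b' hb
      have h4 := h c hc
      have h5 : NearN G (2 * (b - m) + s) (pt f F b' m) (pt f F c m) :=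
        (((hA.base.pt_near h3.1).symm.trans hn).trans (hA.base.pt_near h4.1)).mono (by omega)
      obtain ⟨w', hw', hs'⟩ := hA.conv _ _ _
        (by rw [hA.base.f_pt h3.1, hA.base.f_pt h4.1]) h5
      rw [hA.base.f_pt h3.1] at hs'
      have h6 := liftA_walk hb w' (hw'.trans hK) hs'
      refine ⟨w.append w', fun z hz => ?_⟩
      rcases (SimpleGraph.Walk.mem_support_append_iff _ _).1 hz with hz | hz
      · exact hw z hz
      · exact h6 z hz
  rintro u ⟨x, hx, w1, hw1, hs1⟩ v ⟨y, hy, w3, hw3, hs3⟩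
  obtain ⟨w2, h2⟩ := hchain x y hx (hY x hx y hy)
  have h1 := liftA_walk hx w1 hw1 hs1
  have h3 := liftA_walk hy w3 hw3 hs3
  refine ⟨w1.reverse.append (w2.append w3), fun z hz => ?_⟩
  rcases (SimpleGraph.Walk.mem_support_append_iff _ _).1 hz with hz | hz
  · rw [SimpleGraph.Walk.support_reverse, List.mem_reverse] at hz
    exact h1 z hz
  rcases (SimpleGraph.Walk.mem_support_append_iff _ _).1 hz with hz | hz
  · exact h2 z hz
  · exact h3 z hz

end Pool.Agent.MP_fd1949_A
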