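import Mathlib
import Pool.Agent.Lib.MP_fd1949_C.CombOf
import Pool.Agent.Lib.MP_fd1949_A.ZDef
import Pool.Agent.Lib.MP_fd1949_A.LiftA

/-!
# The comb (with zones) of a connected set in a slab of an almost convex graph
-/

namespace Pool.Agent.MP_fd1949_A

open Pool.Agent.MP_fd1949_co Pool.Agent.MP_fd1949_P Pool.Agent.MP_fd1949_C

theorem combA {V : Type} {G : SimpleGraph V} {N : ℕ → ℕ} {f : V → ℕ} {F : V → ℕ → V}
    (hA : ACon G N f F) {k M q₂ Δ Θ a w r dm : ℕ} {E : Set V}
    (hE : JConn G r E) (hEY : E ⊆ Slab f a w) (hne : E.Nonempty) (e : Fin M → V)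
    (he : ∀ c, e c ∈ E) (dep : ℕ → ℕ)
    (hstep : ∀ n < Θ, dep (n + 1) = dep n + 1 ∨ dep n = dep (n + 1) + 1)
    (hgeo : ∀ n n', n ≤ n' → n' ≤ Θ → dep n + (n' - n) ≤ dep n' ∨ dep n' + (n' - n) ≤ dep n)
    (hdep : ∀ n ≤ Θ, dm ≤ dep n ∧ dep n ≤ a)
    (lev Kr t lo hi : Fin k → ℕ) (hlev : ∀ m, dep (t m) = lev m)
    (hK : ∀ m, N (2 * (a + w - lev m) + r) ≤ Kr m)
    (hzone : ∀ m, lo m + q₂ ≤ t m ∧ t m ≤ hi m) (hhi : ∀ m, hi m ≤ Θ)
    (hgap : ∀ m m', m < m' → hi m' + q₂ < lo m)
    (hcp : ∀ m n, n ≤ Θ → lev m ≤ dep n + (Kr m + q₂) → dep n ≤ lev m + q₂ →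
      lo m ≤ n ∧ n ≤ hi m)
    (hrow : ∀ m m', m < m' → lev m' + Kr m + q₂ < lev m ∨ lev m + Kr m' + q₂ < lev m')
    (hfar : ∀ c c', c ≠ c' → ¬ NearN G (Δ + 2 * (a + w - dm)) (e c) (e c')) :
    ∃ C : ZComb G k M q₂ Δ Θ, (∀ c n, C.col c n = pt f F (e c) (dep n)) ∧
      (∀ m, C.Row m ⊆ liftA G f F (Kr m) E (lev m)) ∧ (∀ m, C.lo m = lo m) ∧
      (∀ m, C.hi m = hi m) ∧ ∀ m, C.t m = t m := by
  have hef : ∀ y ∈ E, a ≤ f y ∧ f y < a + w := fun y hy => hEY hy
  have hla : ∀ m, lev m ≤ a := fun m => by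
    have h1 := hzone m
    have h2 := hhi m
    have h3 := (hdep (t m) (by omega)).2
    rw [hlev] at h3
    exact h3
  obtain ⟨x₀, hx₀⟩ := hne
  have hrows : ∀ m, ∃ (R : ℕ → V) (len : ℕ), (∀ n < len, G.Adj (R n) (R (n + 1))) ∧
      (∀ n ≤ len, R n ∈ liftA G f F (Kr m) E (lev m)) ∧
      ∀ c, ∃ n ≤ len, R n = pt f F (e c) (lev m) := by
    intro m
    have h1 := hla m
    exact walk_through (conn_liftA hA (b := a + w) hE (fun y hy => by
      have := hef y hy
      omega) (hK m)) (mem_liftA hA hx₀ (by have := hef x₀ hx₀; omega)) _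
      fun c => mem_liftA hA (he c) (by have := hef _ (he c); omega)
  choose R len hR1 hR2 hR3 using hrows
  have hfcol : ∀ c n, n ≤ Θ → f (pt f F (e c) (dep n)) = dep n := by
    intro c n hn
    have h1 := hef _ (he c)
    have h2 := hdep n hn
    exact hA.base.f_pt (by omega)
  have hfrow : ∀ m n, n ≤ len m → f (R m n) ≤ lev m ∧ lev m ≤ f (R m n) + Kr m := by
    intro m n hn
    have h1 := hla m
    exact liftA_f hA (fun y hy => by have := hef y hy; omega) (hR2 m n hn)
  refine ⟨{ col := fun c n => pt f F (e c) (dep n)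
            t := t
            lo := lo
            hi := hi
            R := R
            len := len
            col_adj := ?_
            col_geo := ?_
            col_far := ?_
            row_adj := fun m n hn => hR1 m n hn
            row_far := ?_
            zone := hzone
            hi_le := hhi
            gap := hgap
            meet := ?_
            cp := ?_ }, fun _ _ => rfl, ?_, fun _ => rfl, fun _ => rfl, fun _ => rfl⟩
  · intro c n hn
    have h1 := hef _ (he c)
    have h2 := hdep n hn.le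
    have h3 := hdep (n + 1) hn
    rcases hstep n hn with h | h
    · rw [h]
      exact hA.base.pt_adj (by omega)
    · rw [h]
      exact (hA.base.pt_adj (by omega)).symm
  · intro c n n' hnn' hn' w'
    have h1 := hA.base.f_near (n := w'.length) ⟨w', le_rfl⟩
    have h2 := hA.base.f_near (n := w'.length) (NearN.symm ⟨w', le_rfl⟩)
    have h3 := hfcol c n (hnn'.trans hn')
    have h4 := hfcol c n' hn'
    rcases hgeo n n' hnn' hn' with h | h
    · omega
    · omega
  · intro c c' hcc' n n' hn hn' w'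
    by_contra hlt
    refine hfar c c' hcc' ?_
    have h2 := hef _ (he c)
    have h3 := hef _ (he c')
    have h4 := hdep n hn
    have h5 := hdep n' hn'
    have h1 := hA.base.near_cols (x := e c) (y := e c') (m := dep n) (m' := dep n') (by omega)
      (by omega) (D := w'.length) ⟨w', le_rfl⟩
    exact h1.mono (by omega)
  · intro m m' hmm' n n' hn hn' w'
    have h1 := hA.base.f_near (n := w'.length) ⟨w', le_rfl⟩
    have h2 := hA.base.f_near (n := w'.length) (NearN.symm ⟨w', le_rfl⟩)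
    have h3 := hfrow m n hn
    have h4 := hfrow m' n' hn'
    rcases lt_or_gt_of_ne hmm' with h | h
    · rcases hrow m m' h with h5 | h5
      · omega
      · omega
    · rcases hrow m' m h with h5 | h5
      · omega
      · omega
  · intro m c
    obtain ⟨n, hn, h⟩ := hR3 m c
    exact ⟨n, hn, by rw [h, hlev]⟩
  · intro m c n n' hn hn' hnear
    have h1 := hA.base.f_near hnear
    have h2 := hA.base.f_near hnear.symm
    have h3 := hfrow m n hn
    have h4 := hfcol c n' hn'
    refine hcp m n' hn' ?_ ?_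
    · omega
    · omega
  · rintro m z ⟨n, hn, rfl⟩
    exact hR2 m n hn

end Pool.Agent.MP_fd1949_A
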