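import Mathlib
import Pool.Agent.Lib.MP_fd1949_P.Base

/-!
# Public definitions: rooted graphs, filling, almost convex graphs
-/

namespace Pool.Agent.MP_fd1949_A

open Pool.Agent.MP_fd1949_co Pool.Agent.MP_fd1949_P

/-- `o x` is the root of the component of `x`: a vertex of the component, the same one for all
vertices of the component. -/
def Rooted {V : Type} (G : SimpleGraph V) (o : V → V) : Prop :=
  (∀ x, G.Reachable (o x) x) ∧ ∀ x y, G.Adj x y → o x = o y

/-- Any two vertices `x`, `y` at the same distance `n` from their root and at distance at most `i`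
from each other are joined by a walk of length at most `c` inside the ball of radius `n + e` around
the root. -/
def Fill {V : Type} (G : SimpleGraph V) (o : V → V) (i c e : ℕ) : Prop :=
  ∀ x y, G.dist (o x) x = G.dist (o x) y → NearN G i x y →
    ∃ w : G.Walk x y, w.length ≤ c ∧ ∀ z ∈ w.support, G.dist (o x) z ≤ G.dist (o x) x + e

/-- The triangle condition and the quadrangle condition with respect to the roots. (A graph is weakly
modular if they hold for every choice of the roots.) -/
def Modular {V : Type} (G : SimpleGraph V) (o : V → V) : Prop :=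
  (∀ v w, G.Adj v w → G.dist (o v) v = G.dist (o v) w →
    ∃ x, G.Adj v x ∧ G.Adj w x ∧ G.dist (o v) x < G.dist (o v) v) ∧
  ∀ v w z, G.Adj v z → G.Adj w z → v ≠ w → ¬ G.Adj v w → G.dist (o v) v = G.dist (o v) w →
    G.dist (o v) v < G.dist (o v) z →
    ∃ x, G.Adj v x ∧ G.Adj w x ∧ G.dist (o v) x < G.dist (o v) v

end Pool.Agent.MP_fd1949_A
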