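import Mathlib
import Pool.Agent.Lib.MP_fd1949_C.Pub
import Pool.Agent.Lib.MP_fd1949_C.Slow
import Pool.Agent.Lib.MP_fd1949_C.Lift
import Pool.Agent.Lib.MP_fd1949_A.PubA
import Pool.Agent.Lib.MP_fd1949_A.LiftA

/-!
# Filling: geodesics to the roots, overshoot, hyperbolic and weakly modular graphs
-/

namespace Pool.Agent.MP_fd1949_A

open Pool.Agent.MP_fd1949_co Pool.Agent.MP_fd1949_P Pool.Agent.MP_fd1949_C

variable {V : Type} {G : SimpleGraph V} {o : V → V}

lemma Rooted.eq (ho : Rooted G o) {x y : V} (h : G.Reachable x y) : o x = o y := by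
  obtain ⟨w⟩ := h
  induction w with
  | nil => rfl
  | cons h _ ih => exact (ho.2 _ _ h).trans ih

lemma exists_rooted (G : SimpleGraph V) : ∃ o : V → V, Rooted G o := by
  refine ⟨fun x => (G.connectedComponentMk x).out, fun x =>
    SimpleGraph.ConnectedComponent.exact (Quot.out_eq (G.connectedComponentMk x)), fun x y h => ?_⟩
  simp only
  rw [SimpleGraph.ConnectedComponent.sound h.reachable]

lemma Fill.mono {i c e i' c' e' : ℕ} (h : Fill G o i c e) (hi : i' ≤ i) (hc : c ≤ c')
    (he : e ≤ e') : Fill G o i' c' e' := by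
  intro x y hxy hn
  obtain ⟨w, hw, hs⟩ := h x y hxy (hn.mono hi)
  exact ⟨w, hw.trans hc, fun z hz => (hs z hz).trans (Nat.add_le_add_left he _)⟩

/-- The roots and the geodesics. -/
lemma exists_geo (h1 : ∀ x, G.Reachable (o x) x) :
    ∃ γ : V → ℕ → V, ∀ x, γ x 0 = o x ∧ γ x (G.dist (o x) x) = x ∧
      ∀ m, m < G.dist (o x) x → G.Adj (γ x m) (γ x (m + 1)) := by
  have hw : ∀ x, ∃ w : G.Walk (o x) x, w.length = G.dist (o x) x := fun x =>
    (h1 x).exists_walk_length_eq_dist
  choose w hw using hw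
  refine ⟨fun x m => (w x).getVert m, fun x => ⟨(w x).getVert_zero, ?_, fun m hm =>
    (w x).adj_getVert_succ (by rw [hw]; exact hm)⟩⟩
  show (w x).getVert (G.dist (o x) x) = x
  rw [← hw x]
  exact (w x).getVert_length

/-- Any choice of geodesics is a combing for depth `0`. -/
lemma combing_geo {γ : V → ℕ → V}
    (h1 : ∀ x, G.Reachable (o x) x) (h2 : ∀ x y, G.Adj x y → o x = o y)
    (h3 : ∀ x, γ x 0 = o x ∧ γ x (G.dist (o x) x) = x ∧
      ∀ m, m < G.dist (o x) x → G.Adj (γ x m) (γ x (m + 1))) :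
    Combing G 2 0 (fun x => G.dist (o x) x) γ := by
  have h := combing_of (k := fun n => 2 * n + 2) h1 h2 h3 ?_ 0
  · have h5 : top (fun n => 2 * n + 2) 0 = 2 := by
      refine le_antisymm (Finset.sup_le fun n hn => ?_) ?_
      · have := Finset.mem_range.1 hn
        have h6 : n = 0 := by omega
        rw [h6]
      · exact le_top (fun n => 2 * n + 2) (le_refl 0)
    rwa [h5] at h
  · intro x y hxy m hx hy
    have key : ∀ z, m ≤ G.dist (o z) z → NearN G (G.dist (o z) z - m) (γ z m) z := by
      intro z hz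
      have w2 := seq_near (G := G) (γ z) hz fun n _ hn => (h3 z).2.2 n hn
      rwa [(h3 z).2.1] at w2
    have h4 : G.dist (o y) y ≤ G.dist (o x) x + 1 := by
      have := dist_adj (h1 x) hxy.symm
      rwa [← h2 x y hxy]
    exact (((key x hx).trans (NearN.of_adj hxy)).trans (key y hy).symm).mono (by omega)

/-- The filling in terms of the height function. -/
lemma Fill.walk (ho : Rooted G o) {i c e : ℕ} (h : Fill G o i c e) {x y : V}
    (hxy : G.dist (o x) x = G.dist (o y) y) (hn : NearN G i x y) :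
    ∃ w : G.Walk x y, w.length ≤ c ∧ ∀ z ∈ w.support, G.dist (o z) z ≤ G.dist (o x) x + e := by
  classical
  obtain ⟨w, hw, hs⟩ := h x y (by rw [hxy, ho.eq hn.reachable]) hn
  refine ⟨w, hw, fun z hz => ?_⟩
  have h5 := hs z hz
  rw [← ho.eq (w.takeUntil z hz).reachable]
  exact h5

lemma fill_of_walk (ho : Rooted G o) {i c e : ℕ} (h : ∀ x y, G.dist (o x) x = G.dist (o y) y →
    NearN G i x y → ∃ w : G.Walk x y, w.length ≤ c ∧
      ∀ z ∈ w.support, G.dist (o z) z ≤ G.dist (o x) x + e) : Fill G o i c e := by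
  classical
  intro x y hxy hn
  obtain ⟨w, hw, hs⟩ := h x y (by rw [hxy, ho.eq hn.reachable]) hn
  refine ⟨w, hw, fun z hz => ?_⟩
  have h5 := hs z hz
  rwa [← ho.eq (w.takeUntil z hz).reachable] at h5

/-- The part of the column of `x` above the level `m`, as a walk. -/
lemma col_walk {κ H : ℕ} {f : V → ℕ} {F : V → ℕ → V} (hC : Combing G κ H f F) (x : V) {m : ℕ}
    (hm : m ≤ f x) : ∃ w : G.Walk x (F x m), w.length ≤ f x - m ∧ ∀ z ∈ w.support, f z ≤ f x := by
  obtain ⟨w, hw, hs⟩ := seq_walk (G := G) (F x) hm fun n _ hn => hC.adj x n hn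
  refine ⟨(w.copy rfl (hC.self x)).reverse, ?_, fun z hz => ?_⟩
  · rw [SimpleGraph.Walk.length_reverse, SimpleGraph.Walk.length_copy]
    exact hw.le
  · rw [SimpleGraph.Walk.support_reverse, List.mem_reverse, SimpleGraph.Walk.support_copy] at hz
    obtain ⟨n, -, hn2, rfl⟩ := hs z hz
    rw [hC.lev x n hn2]
    exact hn2

/-- Removing the overshoot. -/
theorem fill_down (ho : Rooted G o) {i c e : ℕ} (h : Fill G o (i + 2 * e) c e) :
    Fill G o i (2 * e + c) 0 := by
  obtain ⟨γ, hγ⟩ := exists_geo ho.1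
  have hC := combing_geo ho.1 ho.2 hγ
  set f : V → ℕ := fun x => G.dist (o x) x with hf
  refine fill_of_walk ho fun x y hxy hn => ?_
  have hxy' : f x = f y := hxy
  show ∃ w : G.Walk x y, w.length ≤ 2 * e + c ∧ ∀ z ∈ w.support, f z ≤ f x + 0
  obtain ⟨w1, hw1, hs1⟩ := col_walk hC x (m := f x - e) (by omega)
  obtain ⟨w3, hw3, hs3⟩ := col_walk hC y (m := f x - e) (by omega)
  have hl1 : f (γ x (f x - e)) = f x - e := hC.lev x _ (by omega)
  have hl3 : f (γ y (f x - e)) = f x - e := hC.lev y _ (by omega)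
  obtain ⟨w2, hw2, hs2⟩ : ∃ w : G.Walk (γ x (f x - e)) (γ y (f x - e)), w.length ≤ c ∧
      ∀ z ∈ w.support, f z ≤ f x := by
    rcases le_total e (f x) with he | he
    · have h1 : NearN G (i + 2 * e) (γ x (f x - e)) (γ y (f x - e)) :=
        ((NearN.symm ⟨w1, hw1⟩).trans hn |>.trans ⟨w3, hw3⟩).mono (by omega)
      obtain ⟨w, hw, hs⟩ := h.walk ho (hl1.trans hl3.symm) h1
      refine ⟨w, hw, fun z hz => ?_⟩
      have h2 : f z ≤ f (γ x (f x - e)) + e := hs z hz
      omega
    · have h0 : f x - e = 0 := by omega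
      have h1 : γ x (f x - e) = γ y (f x - e) := by
        rw [h0]
        exact hC.root x y hn.reachable
      have h2 : ∀ p p' : V, p = p' → f p ≤ f x → ∃ w : G.Walk p p', w.length ≤ c ∧
          ∀ z ∈ w.support, f z ≤ f x := by
        rintro p _ rfl hp
        refine ⟨.nil, by simp, fun z hz => ?_⟩
        rw [SimpleGraph.Walk.support_nil, List.mem_singleton] at hz
        rw [hz]
        exact hp
      exact h2 _ _ h1 (by omega)
  refine ⟨w1.append (w2.append w3.reverse), ?_, fun z hz => ?_⟩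
  · rw [SimpleGraph.Walk.length_append, SimpleGraph.Walk.length_append,
      SimpleGraph.Walk.length_reverse]
    omega
  · rcases (SimpleGraph.Walk.mem_support_append_iff _ _).1 hz with hz | hz
    · exact hs1 z hz
    rcases (SimpleGraph.Walk.mem_support_append_iff _ _).1 hz with hz | hz
    · exact hs2 z hz
    · rw [SimpleGraph.Walk.support_reverse, List.mem_reverse] at hz
      have := hs3 z hz
      omega

/-- Hyperbolic graphs: geodesics between points of a ball stay close to the ball. -/
theorem fill_of_fourPoint {δ : ℕ} (h : FourPoint δ G) (ho : Rooted G o) (i : ℕ) :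
    Fill G o i i δ := by
  intro x y hxy hn
  obtain ⟨w, hw⟩ := hn.reachable.exists_walk_length_eq_dist
  refine ⟨w, ?_, fun z hz => ?_⟩
  · rw [hw]
    exact (nearN_iff.1 hn).2
  · classical
    have hxo : G.Reachable (o x) x := ho.1 x
    have hxz : G.Reachable x z := (w.takeUntil z hz).reachable
    have h1 : G.dist x z + G.dist z y = G.dist x y := by
      refine le_antisymm ?_ (dist_tri hxz (w.dropUntil z hz).reachable)
      have h2 := SimpleGraph.dist_le (w.takeUntil z hz)
      have h3 := SimpleGraph.dist_le (w.dropUntil z hz)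
      have h4 := w.take_spec hz
      have h5 := congrArg SimpleGraph.Walk.length h4
      rw [SimpleGraph.Walk.length_append] at h5
      omega
    have h2 := h (o x) z x y (hxo.trans hxz) hxo (hxo.trans hn.reachable)
    rw [SimpleGraph.dist_comm (u := z) (v := x)] at h2
    rcases le_total (G.dist (o x) x + G.dist z y) (G.dist (o x) y + G.dist x z) with h3 | h3
    · rw [max_eq_right h3] at h2
      omega
    · rw [max_eq_left h3] at h2
      omega

end Pool.Agent.MP_fd1949_A
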