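import Mathlib
import Pool.Agent.Lib.MP_fd1949_P.LinRev
import Pool.Agent.Lib.MP_fd1949_A.GridZ

/-!
# A comb with many columns gives a fat complete graph or a fat grid
-/

namespace Pool.Agent.MP_fd1949_A

open Pool.Agent.MP_fd1949_co Pool.Agent.MP_fd1949_P

theorem grid_allZ (m k : ℕ) : ∃ N₂ : ℕ, ∀ (V : Type) (G : SimpleGraph V) (N q S q₁ ω q₂ Δ Θ : ℕ)
    (_ : ZComb G (m + k) N q₂ Δ Θ), ZCst N q S q₁ ω q₂ Δ → N₂ ≤ N →
    (∃ B P, IsFatMinor G (⊤ : SimpleGraph (Fin m)) q B P) ∨ ∃ B P, IsFatMinor G (grid k) q B P := by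
  classical
  obtain ⟨n₁, hn₁⟩ := align k k
  set n := max n₁ (Fintype.card (Sym2 (Fin m))) with hn
  obtain ⟨Na, hNa⟩ := all_rowsZ (m + k) n
  refine ⟨Na, fun V G N q S q₁ ω q₂ Δ Θ C hc hN => ?_⟩
  obtain ⟨D, -, hD2, hrow⟩ := hNa V G N q S q₁ ω q₂ Δ Θ C hc
    Finset.univ (by rw [Finset.card_univ, Fintype.card_fin]; exact hN)
  have hDn1 : n₁ ≤ D.card := (le_max_left _ _).trans hD2
  have hDn2 : Fintype.card (Sym2 (Fin m)) ≤ D.card := (le_max_right _ _).trans hD2
  by_cases hfr : m ≤ (Finset.univ.filter fun a => C.IsFree q S ω a D).card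
  · left
    set Mr := (Finset.univ.filter fun a => C.IsFree q S ω a D).orderEmbOfCardLe hfr
    have hMf : ∀ a, C.IsFree q S ω (Mr a) D := fun a =>
      (Finset.mem_filter.1 (Finset.orderEmbOfCardLe_mem _ hfr a)).2
    refine freeZ C hc Mr Mr.injective D
      (fun s => D.orderEmbOfCardLe hDn2 (Fintype.equivFin _ s)) ?_ ?_ hMf
    · exact (D.orderEmbOfCardLe hDn2).injective.comp (Fintype.equivFin _).injective
    · exact fun s => Finset.orderEmbOfCardLe_mem _ hDn2 _
  right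
  have hcard : k ≤ (Finset.univ.filter fun a => ¬ C.IsFree q S ω a D).card := by
    have h1 := Finset.card_filter_add_card_filter_not (s := (Finset.univ : Finset (Fin (m + k))))
      (fun a => C.IsFree q S ω a D)
    rw [Finset.card_univ, Fintype.card_fin] at h1
    omega
  set Mr : Fin k ↪o Fin (m + k) :=
    (Finset.univ.filter fun a => ¬ C.IsFree q S ω a D).orderEmbOfCardLe hcard with hMr
  have hMl : ∀ a, C.IsLin q S ω (Mr a) D := fun a =>
    (hrow (Mr a)).resolve_left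
      (Finset.mem_filter.1 (Finset.orderEmbOfCardLe_mem _ hcard a)).2
  choose P F J h1 h2 h3 h4 h5 h6 using hMl
  obtain ⟨e, he, heD, hmono⟩ := hn₁ (Fin N) D (fun i => J i) hDn1 (by
    intro i c hc' c' hc'' hne heq
    rcases h5 i c hc' c' hc'' hne with h | h <;> omega)
  exact gridZ C hc (fun a => Mr a) Mr.strictMono e he fun a =>
    linSeq_of e heD he (P a) (F a) (J a) (h1 a) (h2 a) (h3 a) (h4 a) (h5 a) (h6 a) (hmono a)

end Pool.Agent.MP_fd1949_A
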