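import Mathlib
import Pool.Agent.Lib.MP_fd1949_P.MkFat
import Pool.Agent.Lib.MP_fd1949_A.LiftA

/-!
# The star exclusion in almost convex graphs
-/

namespace Pool.Agent.MP_fd1949_A

open Pool.Agent.MP_fd1949_co Pool.Agent.MP_fd1949_P Pool.Agent.MP_fd1949_C

/-- The heights of the rows: each row with height `h` needs the levels `h, ..., h + K`,
`K = N (2 (h + w) + s)`, and there is a gap of length `g` between two rows. -/
def hts (N : ℕ → ℕ) (w s g h₀ : ℕ) : ℕ → ℕ
  | 0 => h₀
  | j + 1 => hts N w s g h₀ j + N (2 * (hts N w s g h₀ j + w) + s) + g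

lemma hts_step (N : ℕ → ℕ) (w s g h₀ : ℕ) {i j : ℕ} (h : i < j) :
    hts N w s g h₀ i + N (2 * (hts N w s g h₀ i + w) + s) + g ≤ hts N w s g h₀ j := by
  induction j, h using Nat.le_induction with
  | base => exact le_rfl
  | succ j _ ih => exact ih.trans (by simp only [hts]; omega)

lemma hts_mono (N : ℕ → ℕ) (w s g h₀ : ℕ) {i j : ℕ} (h : i ≤ j) :
    hts N w s g h₀ i ≤ hts N w s g h₀ j := by
  rcases h.eq_or_lt with h | h
  · rw [h]
  · have := hts_step N w s g h₀ h
    omega

/-- The star exclusion. -/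
theorem starA {V : Type} {G : SimpleGraph V} {N : ℕ → ℕ} {f : V → ℕ} {F : V → ℕ → V}
    (hA : ACon G N f F) {q s w a t C T K : ℕ} (hT : hts N w s (q + 1) 0 t ≤ T) (ha : T ≤ a)
    (hK : N (2 * (T + w) + s) ≤ K) (hCC : 2 * (w + T) + K + q ≤ C)
    (hfree : FatMinorFree G (⊤ : SimpleGraph (Fin t)) q) : StarAt G (Slab f a w) t s C := by
  intro D₀ A z hne hDY hAY hD hAc hz far0 farA
  apply hfree
  set h : ℕ → ℕ := hts N w s (q + 1) 0 with hh
  set Kr : ℕ → ℕ := fun m => N (2 * (h m + w) + s) with hKr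
  have hstep : ∀ i j, i < j → h i + Kr i + (q + 1) ≤ h j := fun i j hij => hts_step _ _ _ _ _ hij
  have hle : ∀ m : Fin t, h m ≤ T := fun m => (hts_mono _ _ _ _ _ m.2.le).trans hT
  have hKle : ∀ m : Fin t, Kr m ≤ K := fun m =>
    (hA.mono _ _ (by have := hle m; omega)).trans hK
  -- the hub with the arms of a row
  set Y : Fin t → Set V := fun m => D₀ ∪ ⋃ e ∈ {e : Sym2 (Fin t) | m ∈ e}, A e with hY
  have hYs : ∀ m, Y m ⊆ Slab f a w := fun m =>
    Set.union_subset hDY (Set.iUnion₂_subset fun e _ => hAY e)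
  have hYc : ∀ m, JConn G s (Y m) := fun m => jconn_iUnion A _ hne hD fun e _ => hAc e
  have hYd : ∀ m, ∀ y ∈ Y m, a ≤ f y ∧ f y < a + w := fun m y hy => hYs m hy
  have hzs : ∀ e, a ≤ f (z e) ∧ f (z e) < a + w := fun e => hAY e (hz e)
  have hzz : ∀ e e', e ≠ e' → Far G C {z e} {z e'} := fun e e' hee =>
    (farA e e' hee).mono le_rfl subset_rfl (Set.singleton_subset_iff.2 (hz e'))
  have hzY : ∀ e m, m ∉ e → Far G C {z e} (Y m) := by
    rintro e m hm x hx y (hy | hy) w
    · exact far0 e x hx y hy w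
    · obtain ⟨e', he', hy⟩ := Set.mem_iUnion₂.1 hy
      refine farA e e' ?_ x hx y hy w
      rintro rfl
      exact hm he'
  refine mkFat ⊤ q (fun m => liftA G f F (Kr m) (Y m) (a - h m))
    (fun e => {p | ∃ n, a ≤ n + T ∧ n ≤ a ∧ p = pt f F (z e) n}) ?_ ?_ ?_ ?_ ?_ ?_
  · intro m
    obtain ⟨x, hx⟩ := hne
    have hx' : x ∈ Y m := Or.inl hx
    have := hYd m x hx'
    exact ⟨_, mem_liftA hA hx' (by omega)⟩
  · intro m
    refine conn_liftA hA (b := a + w) (hYc m) (fun y hy => ?_) ?_
    · have := hYd m y hy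
      omega
    · have := hle m
      rw [show 2 * (a + w - (a - h m)) + s = 2 * (h m + w) + s by omega]
  · intro e _
    induction e with
    | _ m m' =>
      have hm : z s(m, m') ∈ Y m :=
        Or.inr (Set.mem_iUnion₂.2 ⟨s(m, m'), Sym2.mem_mk_left m m', hz _⟩)
      have hm' : z s(m, m') ∈ Y m' :=
        Or.inr (Set.mem_iUnion₂.2 ⟨s(m, m'), Sym2.mem_mk_right m m', hz _⟩)
      have h1 := hle m
      have h2 := hle m'
      have h5 := hzs s(m, m')
      refine ⟨m, m', rfl, pt f F (z s(m, m')) (a - h m), mem_liftA hA hm (by omega),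
        pt f F (z s(m, m')) (a - h m'), mem_liftA hA hm' (by omega), ?_⟩
      rcases le_total (a - h m) (a - h m') with h | h
      · obtain ⟨w, -, hw⟩ := seq_walk (pt f F (z s(m, m'))) h
          fun n _ hn => hA.base.pt_adj (by omega)
        refine ⟨w, fun p hp => ?_⟩
        obtain ⟨n, h6, h7, h8⟩ := hw p hp
        exact ⟨n, by omega, by omega, h8⟩
      · obtain ⟨w, -, hw⟩ := seq_walk (pt f F (z s(m, m'))) h
          fun n _ hn => hA.base.pt_adj (by omega)
        refine ⟨w.reverse, fun p hp => ?_⟩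
        have hp' : p ∈ w.support := by
          have h1 := SimpleGraph.Walk.support_reverse w
          have h2 : p ∈ w.support.reverse := h1 ▸ hp
          exact List.mem_reverse.1 h2
        obtain ⟨n, h6, h7, h8⟩ := hw p hp'
        exact ⟨n, by omega, by omega, h8⟩
  · intro m m' hmm x hx y hy w
    have h3 := hle m
    have h4 := hle m'
    have hx' := liftA_f hA (fun y hy => by have := hYd m y hy; omega) hx
    have hy' := liftA_f hA (fun y hy => by have := hYd m' y hy; omega) hy
    have h0 : NearN G w.length x y := ⟨w, le_rfl⟩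
    have h1 := hA.base.f_near h0
    have h2 := hA.base.f_near h0.symm
    rcases lt_or_gt_of_ne hmm with hlt | hlt
    · have := hstep m m' hlt
      omega
    · have := hstep m' m hlt
      omega
  · rintro e _ e' _ hee _ ⟨n, hn1, hn2, rfl⟩ _ ⟨n', hn1', hn2', rfl⟩ w
    by_contra hlt
    have h1 := hzs e
    have h2 := hzs e'
    have hn := hA.base.near_cols (x := z e) (y := z e') (by omega) (by omega) ⟨w, le_rfl⟩
    refine (hzz e e' hee).not_near (m := f (z e) - n + w.length + (f (z e') - n')) ?_ rfl rfl hn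
    omega
  · rintro e _ m hm _ ⟨n, hn1, hn2, rfl⟩ p hp w
    obtain ⟨y, hy, hyp⟩ := liftA_near hp
    by_contra hlt
    have h1 := hzs e
    have h2 := hYd m y hy
    have h3 := hle m
    have h4 := hKle m
    have hn := hA.base.near_cols (x := z e) (y := y) (m := n) (m' := a - h m) (D := w.length + Kr m)
      (by omega) (by omega) (NearN.trans ⟨w, le_rfl⟩ hyp.symm)
    refine (hzY e m hm).not_near (m := f (z e) - n + (w.length + Kr m) + (f y - (a - h m))) ?_ rfl
      hy hn
    omega

end Pool.Agent.MP_fd1949_A
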