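import Mathlib
import Pool.Agent.Lib.MP_fd1949_A.StarA
import Pool.Agent.Lib.MP_fd1949_A.CombA
import Pool.Agent.Lib.MP_fd1949_A.BookZ

/-!
# Two sheets give three glued pages (almost convex graphs)
-/

namespace Pool.Agent.MP_fd1949_A

open Pool.Agent.MP_fd1949_co Pool.Agent.MP_fd1949_P Pool.Agent.MP_fd1949_C

/-- The inequalities between the numbers of the two sheet exclusion; the pages `p = 0, 1` are low,
the page `p = 2` is high. -/
structure ShA (N : ℕ → ℕ) (k q r w a s ρ Δ₀ Δ S ω q₂ T KT KJ Λ : ℕ) (Θ : Fin 3 → ℕ) : Prop where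
  hq : 1 ≤ q
  hq₂ : 2 * (ω + S) + q ≤ q₂
  hT : hts N w r (3 * q₂ + 1) q₂ k ≤ T
  hKT : N (2 * (T + w) + r) ≤ KT
  hKJ : N (2 * (T + w) + ρ) ≤ KJ
  hΘA : ∀ p, p ≠ 2 → Θ p = T
  hΘ : hts N w r (3 * q₂ + 1) (T + KJ + q + 2 * q₂) k ≤ T + KJ + q + Θ 2
  hΛ : T + KJ + q + Θ 2 ≤ Λ
  ha : Λ ≤ a
  hs : 2 * (ω + S + KT + (T + w)) + q ≤ s
  hΔ₀ : Δ + 2 * (w + Λ + ρ + KJ) + q ≤ Δ₀

theorem sheetsA {V : Type} {G : SimpleGraph V} {N : ℕ → ℕ} {f : V → ℕ} {F : V → ℕ → V}
    {k M q r w a s ρ Δ₀ Δ S ω q₂ T KT KJ Λ : ℕ} {Θ : Fin 3 → ℕ} (hA : ACon G N f F)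
    (hc : ShA N k q r w a s ρ Δ₀ Δ S ω q₂ T KT KJ Λ Θ)
    {E σ : Set V} {z e : Fin M → V} (hEY : E ⊆ Slab f a w) (hσY : σ ⊆ Slab f a w)
    (hE : JConn G r E) (hσ : JConn G r σ) (hEne : E.Nonempty) (hσne : σ.Nonempty)
    (hfar : Far G (s + 1) σ E) (hze : ∀ c, z c ∈ σ ∧ e c ∈ E ∧ NearN G ρ (z c) (e c))
    (hzz : ∀ c c', c ≠ c' → ¬ NearN G Δ₀ (z c) (z c')) :
    Nonempty (BookZ G k M q S ω q₂ Δ Θ) := by
  classical
  obtain ⟨hq, hq₂, hT, hKT, hKJ, hΘA, hΘ, hΛ, ha, hs, hΔ₀⟩ := hc
  have hB := hA.base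
  set aJ := a - T with haJ
  set aC := aJ - KJ - q with haC
  have hJC : aC + KJ + q = aJ ∧ aJ + T = a ∧ aC + (T + KJ + q) = a := by omega
  -- the data of the pages
  set P : Fin 3 → Set V := fun p => if p = 1 then σ else E with hP
  set x : Fin 3 → Fin M → V := fun p => if p = 1 then z else e with hx
  set dep : Fin 3 → ℕ → ℕ := fun p n => if p = 2 then aC - n else aJ + n with hdep
  have dep2 : ∀ n, dep 2 n = aC - n := fun n => if_pos rfl
  have depA : ∀ p n, p ≠ 2 → dep p n = aJ + n := fun p n hp => if_neg hp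
  have P1 : P 1 = σ := if_pos rfl
  have PE : ∀ p, p ≠ 1 → P p = E := fun p hp => if_neg hp
  have hPx : ∀ p c, x p c ∈ P p ∧ NearN G ρ (z c) (x p c) := by
    intro p c
    by_cases hp : p = 1
    · have h1 : x p c = z c := by simp only [hx]; rw [if_pos hp]
      rw [h1, hp, P1]
      exact ⟨(hze c).1, NearN.refl _ _⟩
    · have h1 : x p c = e c := by simp only [hx]; rw [if_neg hp]
      rw [h1, PE p hp]
      exact (hze c).2
  have hPY : ∀ p, P p ⊆ Slab f a w := by
    intro p
    by_cases hp : p = 1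
    · rw [hp, P1]; exact hσY
    · rw [PE p hp]; exact hEY
  have hPc : ∀ p, JConn G r (P p) := by
    intro p
    by_cases hp : p = 1
    · rw [hp, P1]; exact hσ
    · rw [PE p hp]; exact hE
  have hPne : ∀ p, (P p).Nonempty := by
    intro p
    by_cases hp : p = 1
    · rw [hp, P1]; exact hσne
    · rw [PE p hp]; exact hEne
  have hxf : ∀ p c, a ≤ f (x p c) ∧ f (x p c) < a + w := fun p c => hPY p (hPx p c).1
  have hPf : ∀ p, ∀ y ∈ P p, a ≤ f y ∧ f y < a + w := fun p y hy => hPY p hy
  -- depths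
  have hdepA : ∀ p n, p ≠ 2 → n ≤ Θ p → aJ ≤ dep p n ∧ dep p n ≤ a := by
    intro p n hp hn
    rw [hΘA p hp] at hn
    rw [depA p n hp]
    omega
  have hdepC : ∀ n, n ≤ Θ 2 → a - Λ ≤ dep 2 n ∧ dep 2 n ≤ aC ∧ dep 2 n ≤ a := by
    intro n hn
    rw [dep2]
    omega
  have hdepall : ∀ p n, n ≤ Θ p → a - Λ ≤ dep p n ∧ dep p n ≤ a := by
    intro p n hn
    by_cases hp : p = 2
    · subst hp
      have := hdepC n hn
      omega
    · have := hdepA p n hp hn
      omega
  -- far apart columns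
  have hxx : ∀ p c c', c ≠ c' → ¬ NearN G (Δ + 2 * (w + Λ)) (x p c) (x p c') := by
    intro p c c' hcc hn
    refine hzz c c' hcc ?_
    exact (((hPx p c).2.trans hn).trans (hPx p c').2.symm).mono (by omega)
  -- the heights
  set hA' : ℕ → ℕ := hts N w r (3 * q₂ + 1) q₂ with hhA
  set hC' : ℕ → ℕ := hts N w r (3 * q₂ + 1) (T + KJ + q + 2 * q₂) with hhC
  have hAstep : ∀ i j, i < j → hA' i + N (2 * (hA' i + w) + r) + (3 * q₂ + 1) ≤ hA' j :=
    fun i j hij => hts_step _ _ _ _ _ hij
  have hCstep : ∀ i j, i < j → hC' i + N (2 * (hC' i + w) + r) + (3 * q₂ + 1) ≤ hC' j :=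
    fun i j hij => hts_step _ _ _ _ _ hij
  have hA0 : ∀ i, q₂ ≤ hA' i := fun i => hts_mono N w r (3 * q₂ + 1) q₂ (Nat.zero_le i)
  have hC0 : ∀ i, T + KJ + q + 2 * q₂ ≤ hC' i := fun i =>
    hts_mono N w r (3 * q₂ + 1) (T + KJ + q + 2 * q₂) (Nat.zero_le i)
  set hh : Fin 3 → Fin k → ℕ := fun p m => if p = 2 then hC' (k - 1 - m.val) else hA' m.val
    with hhh
  have hh2 : ∀ m, hh 2 m = hC' (k - 1 - m.val) := fun m => if_pos rfl
  have hhA' : ∀ p m, p ≠ 2 → hh p m = hA' m.val := fun p m hp => if_neg hp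
  set Kr : Fin 3 → Fin k → ℕ := fun p m => N (2 * (hh p m + w) + r) with hKr
  have hrA : ∀ p m, p ≠ 2 → q₂ ≤ hh p m ∧ hh p m + Kr p m + (3 * q₂ + 1) ≤ T := by
    intro p m hp
    have h1 := hAstep m.val k m.isLt
    have h2 := hA0 m.val
    simp only [hKr]
    rw [hhA' p m hp]
    omega
  have hrC : ∀ m, T + KJ + q + 2 * q₂ ≤ hh 2 m ∧
      hh 2 m + Kr 2 m + (3 * q₂ + 1) ≤ T + KJ + q + Θ 2 := by
    intro m
    have h1 := hCstep (k - 1 - m.val) k (by have := m.isLt; omega)
    have h2 := hC0 (k - 1 - m.val)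
    simp only [hKr]
    rw [hh2 m]
    omega
  have hrall : ∀ p m, hh p m + Kr p m ≤ Λ := by
    intro p m
    by_cases hp : p = 2
    · subst hp
      have := hrC m
      omega
    · have := hrA p m hp
      omega
  have hgA : ∀ p (m m' : Fin k), p ≠ 2 → m < m' →
      hh p m + Kr p m + (3 * q₂ + 1) ≤ hh p m' := by
    intro p m m' hp hmm
    simp only [hKr]
    rw [hhA' p m hp, hhA' p m' hp]
    exact hAstep _ _ hmm
  have hgC : ∀ (m m' : Fin k), m < m' → hh 2 m' + Kr 2 m' + (3 * q₂ + 1) ≤ hh 2 m := by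
    intro m m' hmm
    simp only [hKr]
    rw [hh2 m, hh2 m']
    refine hCstep _ _ ?_
    have h1 : m.val < m'.val := hmm
    have := m'.isLt
    omega
  set lo : Fin 3 → Fin k → ℕ := fun p m =>
    if p = 2 then hh p m - (T + KJ + q) - q₂ else T - hh p m - Kr p m - q₂ with hlo
  set hi : Fin 3 → Fin k → ℕ := fun p m =>
    if p = 2 then hh p m - (T + KJ + q) + Kr p m + q₂ else T - hh p m + q₂ with hhi
  have lo2 : ∀ m, lo 2 m = hh 2 m - (T + KJ + q) - q₂ := fun m => if_pos rfl
  have loA : ∀ p m, p ≠ 2 → lo p m = T - hh p m - Kr p m - q₂ := fun p m hp => if_neg hp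
  have hi2 : ∀ m, hi 2 m = hh 2 m - (T + KJ + q) + Kr 2 m + q₂ := fun m => if_pos rfl
  have hiA : ∀ p m, p ≠ 2 → hi p m = T - hh p m + q₂ := fun p m hp => if_neg hp
  have hcomb : ∀ p : Fin 3, ∃ C : ZComb G k M q₂ Δ (Θ p),
      (∀ c n, C.col c n = pt f F (x p c) (dep p n)) ∧
      (∀ m, C.Row m ⊆ liftA G f F (Kr p m) (P p) (a - hh p m)) ∧ (∀ m, C.lo m = lo p m) ∧
      ∀ m, C.hi m = hi p m := by
    intro p
    by_cases hp : p = 2
    · subst hp
      obtain ⟨C, h1, h2, h3, h4, -⟩ := combA hA (Δ := Δ) (q₂ := q₂) (dm := a - Λ) (Θ := Θ 2)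
        (hPc 2) (hPY 2) (hPne 2) (x 2) (fun c => (hPx 2 c).1) (dep 2)
        (fun n hn => by rw [dep2, dep2]; omega)
        (fun n n' hn hn' => by rw [dep2, dep2]; omega) (hdepall 2)
        (fun m => a - hh 2 m) (Kr 2) (fun m => hh 2 m - (T + KJ + q)) (lo 2) (hi 2)
        (fun m => by have := hrC m; rw [dep2]; omega)
        (fun m => by
          have h1 := hrC m
          simp only [hKr]
          rw [show a + w - (a - hh 2 m) = hh 2 m + w by omega])
        (fun m => by have := hrC m; rw [lo2, hi2]; omega)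
        (fun m => by have := hrC m; rw [hi2]; omega)
        (fun m m' hmm => by
          have h1 := hrC m
          have h2 := hrC m'
          have h3 := hgC m m' hmm
          rw [hi2, lo2]
          omega)
        (fun m n hn h1 h2 => by
          have h3 := hrC m
          rw [dep2] at h1 h2
          rw [lo2, hi2]
          omega)
        (fun m m' hmm => by
          have h1 := hrC m
          have h2 := hrC m'
          have h3 := hgC m m' hmm
          right
          omega)
        (fun c c' hcc hn => hxx 2 c c' hcc (hn.mono (by omega)))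
      exact ⟨C, h1, h2, h3, h4⟩
    · have hTp := hΘA p hp
      obtain ⟨C, h1, h2, h3, h4, -⟩ := combA hA (Δ := Δ) (q₂ := q₂) (dm := aJ) (Θ := Θ p)
        (hPc p) (hPY p) (hPne p) (x p) (fun c => (hPx p c).1) (dep p)
        (fun n hn => by rw [depA p _ hp, depA p _ hp]; omega)
        (fun n n' hn hn' => by rw [depA p _ hp, depA p _ hp]; omega)
        (fun n hn => hdepA p n hp hn)
        (fun m => a - hh p m) (Kr p) (fun m => T - hh p m) (lo p) (hi p)
        (fun m => by have := hrA p m hp; rw [depA p _ hp]; omega)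
        (fun m => by
          have h1 := hrA p m hp
          simp only [hKr]
          rw [show a + w - (a - hh p m) = hh p m + w by omega])
        (fun m => by have := hrA p m hp; rw [loA p m hp, hiA p m hp]; omega)
        (fun m => by have := hrA p m hp; rw [hiA p m hp]; omega)
        (fun m m' hmm => by
          have h1 := hrA p m hp
          have h2 := hrA p m' hp
          have h3 := hgA p m m' hp hmm
          rw [hiA p m' hp, loA p m hp]
          omega)
        (fun m n hn h1 h2 => by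
          have h3 := hrA p m hp
          rw [depA p _ hp] at h1 h2
          rw [loA p m hp, hiA p m hp]
          omega)
        (fun m m' hmm => by
          have h1 := hrA p m hp
          have h2 := hrA p m' hp
          have h3 := hgA p m m' hp hmm
          left
          omega)
        (fun c c' hcc hn => hxx p c c' hcc (hn.mono (by omega)))
      exact ⟨C, h1, h2, h3, h4⟩
  choose C hcol hrow hClo hChi using hcomb
  -- columns
  have hcolf : ∀ p c n, n ≤ Θ p → f ((C p).col c n) = dep p n := by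
    intro p c n hn
    rw [hcol]
    have h1 := hdepall p n hn
    have h2 := hxf p c
    exact hB.f_pt (by omega)
  have hcoln : ∀ p c n, n ≤ Θ p → NearN G (a + w - dep p n) (x p c) ((C p).col c n) := by
    intro p c n hn
    rw [hcol]
    have h1 := hdepall p n hn
    have h2 := hxf p c
    exact (hB.pt_near (by omega)).mono (by omega)
  have hcolz : ∀ p c n, n ≤ Θ p → NearN G (w + Λ + ρ) (z c) ((C p).col c n) := by
    intro p c n hn
    have h1 := hdepall p n hn
    exact ((hPx p c).2.trans (hcoln p c n hn)).mono (by omega)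
  -- rows
  have hrowf : ∀ p m y, y ∈ (C p).Row m → f y ≤ a - hh p m ∧ a - hh p m ≤ f y + Kr p m := by
    intro p m y hy
    have h2 := hrall p m
    exact liftA_f hA (fun u hu => by have := hPf p u hu; omega) (hrow p m hy)
  -- zones
  have hznA : ∀ p m y, p ≠ 2 → y ∈ nbhd G (ω + S) ((C p).Zn m) → aJ + q ≤ f y := by
    rintro p m y hp ⟨y', hy', hyy⟩
    have h1 := hrA p m hp
    have h2 := hB.f_near hyy
    rcases hy' with hy' | hy'
    · have h3 := hrowf p m y' hy'
      omega
    · obtain ⟨c, n, h3, h4, rfl⟩ := Set.mem_iUnion.1 hy'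
      rw [hClo, loA p m hp] at h3
      have h5 := (C p).hi_le m
      rw [hcolf p c n (by omega), depA p n hp] at h2
      omega
  have hznC : ∀ m y, y ∈ nbhd G (ω + S) ((C 2).Zn m) → f y + q ≤ aC := by
    rintro m y ⟨y', hy', hyy⟩
    have h1 := hrC m
    have h2 := hB.f_near hyy.symm
    rcases hy' with hy' | hy'
    · have h3 := hrowf 2 m y' hy'
      omega
    · obtain ⟨c, n, h3, h4, rfl⟩ := Set.mem_iUnion.1 hy'
      rw [hClo, lo2 m] at h3
      have h5 := (C 2).hi_le m
      rw [hcolf 2 c n (by omega), dep2] at h2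
      omega
  have hznn : ∀ p m y, p ≠ 2 → y ∈ nbhd G (ω + S) ((C p).Zn m) →
      ∃ u ∈ P p, NearN G (ω + S + KT + (T + w)) u y := by
    rintro p m y hp ⟨y', hy', hyy⟩
    have h1 := hrA p m hp
    rcases hy' with hy' | hy'
    · obtain ⟨u, hu, huy⟩ := liftA_near (hrow p m hy')
      have h3 := hPf p u hu
      have h4 := hB.pt_near (x := u) (m := a - hh p m) (by omega)
      have h5 : Kr p m ≤ KT := by
        refine le_trans ?_ hKT
        simp only [hKr]
        exact hA.mono _ _ (by omega)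
      exact ⟨u, hu, ((h4.trans huy).trans hyy).mono (by omega)⟩
    · obtain ⟨c, n, h3, h4, rfl⟩ := Set.mem_iUnion.1 hy'
      have h5 := (C p).hi_le m
      have h6 := hcoln p c n (by omega)
      have h7 := hdepA p n hp (by omega)
      exact ⟨x p c, (hPx p c).1, (h6.trans hyy).mono (by omega)⟩
  -- the junctions
  set J : Fin M → Set V := fun c => liftA G f F KJ {e c} aJ ∪
    {y | ∃ n, aC ≤ n ∧ n ≤ aJ ∧ y = pt f F (e c) n} with hJ
  have hef : ∀ c, a ≤ f (e c) ∧ f (e c) < a + w := fun c => hEY (hze c).2.1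
  have hzf : ∀ c, a ≤ f (z c) ∧ f (z c) < a + w := fun c => hσY (hze c).1
  have hJf : ∀ c y, y ∈ J c → aC ≤ f y ∧ f y ≤ aJ := by
    intro c y hy
    have h1 := hef c
    rcases hy with hy | ⟨n, hn1, hn2, rfl⟩
    · have h3 := liftA_f hA (fun u hu => by rw [Set.mem_singleton_iff.1 hu]; omega) hy
      omega
    · rw [hB.f_pt (by omega)]
      exact ⟨hn1, hn2⟩
  have hJn : ∀ c y, y ∈ J c → NearN G (w + Λ + ρ + KJ) (z c) y := by
    intro c y hy
    have h1 := hef c
    rcases hy with hy | ⟨n, hn1, hn2, rfl⟩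
    · obtain ⟨u, hu, huy⟩ := liftA_near hy
      rw [Set.mem_singleton_iff.1 hu] at huy
      exact (((hze c).2.2.trans (hB.pt_near (m := aJ) (by omega))).trans huy).mono (by omega)
    · exact ((hze c).2.2.trans (hB.pt_near (by omega))).mono (by omega)
  have hJconn : ∀ c, Conn G (J c) := by
    intro c
    have h1 := hef c
    have c1 : Conn G (liftA G f F KJ {e c} aJ) := by
      refine conn_liftA hA (s := ρ) (b := a + w) ?_ (fun y hy => ?_) ?_
      · intro u hu v hv
        rw [Set.mem_singleton_iff.1 hu, Set.mem_singleton_iff.1 hv]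
        exact JChain.refl _
      · rw [Set.mem_singleton_iff.1 hy]
        omega
      · rw [show a + w - aJ = T + w by omega]
        exact hKJ
    have c2 : Conn G {y | ∃ n, aC ≤ n ∧ n ≤ aJ ∧ y = pt f F (e c) n} :=
      conn_seq _ fun n _ hn => hB.pt_adj (by omega)
    exact c1.union c2 (z := pt f F (e c) aJ)
      (mem_liftA hA (Set.mem_singleton _) (by omega)) ⟨aJ, by omega, le_rfl, rfl⟩
  have hfarf : ∀ X Y : Set V, (∀ x ∈ X, ∀ y ∈ Y, f x + q ≤ f y ∨ f y + q ≤ f x) →
      Far G q X Y := by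
    intro X Y h x hx y hy w
    have h0 : NearN G w.length x y := ⟨w, le_rfl⟩
    have h1 := hB.f_near h0
    have h2 := hB.f_near h0.symm
    rcases h x hx y hy with h3 | h3 <;> omega
  -- two low pages are far apart
  have hlow : ∀ p p' : Fin 3, p ≠ p' → p ≠ 2 → p' ≠ 2 → ∀ X Y : Set V,
      (∀ y ∈ X, ∃ u ∈ P p, NearN G (ω + S + KT + (T + w)) u y) →
      (∀ y ∈ Y, ∃ u ∈ P p', NearN G (ω + S + KT + (T + w)) u y) → Far G q X Y := by
    intro p p' hpp hp hp' X Y hX hY y hy y' hy' w'
    by_contra hlt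
    obtain ⟨u, hu, huy⟩ := hX y hy
    obtain ⟨u', hu', huy'⟩ := hY y' hy'
    have h0 : NearN G w'.length y y' := ⟨w', le_rfl⟩
    have h1 : NearN G s u u' := ((huy.trans h0).trans huy'.symm).mono (by omega)
    have hcases : (p = 0 ∧ p' = 1) ∨ (p = 1 ∧ p' = 0) := by omega
    rcases hcases with ⟨rfl, rfl⟩ | ⟨rfl, rfl⟩
    · rw [PE 0 (by decide)] at hu
      rw [P1] at hu'
      exact hfar.not_near (Nat.lt_succ_self s) hu' hu h1.symm
    · rw [P1] at hu
      rw [PE 0 (by decide)] at hu'
      exact hfar.not_near (Nat.lt_succ_self s) hu hu' h1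
  have hcolA : ∀ p c y, p ≠ 2 → y ∈ (C p).Col c → aJ ≤ f y ∧
      ∃ u ∈ P p, NearN G (ω + S + KT + (T + w)) u y := by
    rintro p c y hp ⟨n, hn, rfl⟩
    have h1 := hdepA p n hp hn
    refine ⟨by rw [hcolf p c n hn]; exact h1.1, x p c, (hPx p c).1, ?_⟩
    exact (hcoln p c n hn).mono (by omega)
  have hcolC : ∀ c y, y ∈ (C 2).Col c → f y ≤ aC := by
    rintro c y ⟨n, hn, rfl⟩
    have h1 := hdepC n hn
    rw [hcolf 2 c n hn]
    exact h1.2.1
  refine ⟨{ C := C, J := J, connJ := hJconn, memJ := ?_, low := ?_, farJJ := ?_, farJR := ?_,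
            farJC := ?_, farJV := ?_, farRR := ?_, farRC := ?_, farCC := ?_ }⟩
  · intro p c
    rw [hcol]
    have h1 := hef c
    have h2 := hzf c
    by_cases hp : p = 2
    · subst hp
      rw [dep2]
      have h1 : x 2 c = e c := rfl
      rw [h1]
      exact Or.inr ⟨aC, le_rfl, by omega, rfl⟩
    · rw [depA p _ hp]
      by_cases hp1 : p = 1
      · subst hp1
        have h3 : x 1 c = z c := rfl
        rw [h3, Nat.add_zero]
        left
        have h4 : NearN G (2 * (T + w) + ρ) (pt f F (e c) aJ) (pt f F (z c) aJ) := by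
          have h5 := hB.pt_near (x := e c) (m := aJ) (by omega)
          have h6 := hB.pt_near (x := z c) (m := aJ) (by omega)
          exact ((h5.symm.trans (hze c).2.2.symm).trans h6).mono (by omega)
        obtain ⟨w', hw', hs'⟩ := hA.conv _ _ _
          (by rw [hB.f_pt (by omega), hB.f_pt (by omega)]) h4
        rw [hB.f_pt (by omega)] at hs'
        exact ⟨e c, Set.mem_singleton _, w', hw'.trans hKJ, hs'⟩
      · have h3 : x p c = e c := by simp only [hx]; rw [if_neg hp1]
        rw [h3, Nat.add_zero]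
        exact Or.inl (mem_liftA hA (Set.mem_singleton _) (by omega))
  · intro p m
    rw [hClo]
    by_cases hp : p = 2
    · subst hp
      have h1 := hrC m
      rw [lo2]
      omega
    · have h1 := hrA p m hp
      rw [loA p m hp]
      omega
  · intro c c' hcc
    refine far_of ?_
    intro y hy y' hy' k hk hn
    refine hzz c c' hcc ?_
    exact (((hJn c y hy).trans hn).trans (hJn c' y' hy').symm).mono (by omega)
  · intro p m c
    refine hfarf _ _ fun y hy y' hy' => ?_
    have h1 := hJf c y hy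
    by_cases hp : p = 2
    · subst hp
      have := hznC m y' hy'
      omega
    · have := hznA p m y' hp hy'
      omega
  · rintro p c c' hcc
    refine far_of ?_
    rintro y hy _ ⟨n, hn, rfl⟩ k hk hnn
    refine hzz c c' hcc ?_
    exact (((hJn c y hy).trans hnn).trans (hcolz p c' n hn).symm).mono (by omega)
  · intro p c n hn hn'
    refine hfarf _ _ ?_
    rintro y hy _ rfl
    have h1 := hJf c y hy
    rw [hcolf p c n hn']
    by_cases hp : p = 2
    · subst hp
      have h2 := hdepC n hn'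
      rw [dep2] at h2 ⊢
      omega
    · rw [depA p n hp]
      omega
  · intro p p' m m' hpp
    by_cases hp : p = 2
    · subst hp
      refine hfarf _ _ fun y hy y' hy' => ?_
      have h1 := hznC m y hy
      have h2 := hznA p' m' y' (Ne.symm hpp) hy'
      omega
    · by_cases hp' : p' = 2
      · subst hp'
        refine hfarf _ _ fun y hy y' hy' => ?_
        have h1 := hznA p m y hp hy
        have h2 := hznC m' y' hy'
        omega
      · exact hlow p p' hpp hp hp' _ _ (fun y hy => hznn p m y hp hy)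
          fun y hy => hznn p' m' y hp' hy
  · intro p p' m c hpp
    by_cases hp : p = 2
    · subst hp
      refine hfarf _ _ fun y hy y' hy' => ?_
      have h1 := hznC m y hy
      have h2 := (hcolA p' c y' (Ne.symm hpp) hy').1
      omega
    · by_cases hp' : p' = 2
      · subst hp'
        refine hfarf _ _ fun y hy y' hy' => ?_
        have h1 := hznA p m y hp hy
        have h2 := hcolC c y' hy'
        omega
      · exact hlow p p' hpp hp hp' _ _ (fun y hy => hznn p m y hp hy)
          fun y hy => (hcolA p' c y hp' hy).2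
  · intro p p' c c' hpp
    by_cases hp : p = 2
    · subst hp
      refine hfarf _ _ fun y hy y' hy' => ?_
      have h1 := hcolC c y hy
      have h2 := (hcolA p' c' y' (Ne.symm hpp) hy').1
      omega
    · by_cases hp' : p' = 2
      · subst hp'
        refine hfarf _ _ fun y hy y' hy' => ?_
        have h1 := (hcolA p c y hp hy).1
        have h2 := hcolC c' y' hy'
        omega
      · exact hlow p p' hpp hp hp' _ _ (fun y hy => (hcolA p c y hp hy).2)
          fun y hy => (hcolA p' c' y hp' hy).2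

end Pool.Agent.MP_fd1949_A
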