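import Mathlib
import Pool.Agent.Lib.MP_fd1949_C.Num
import Pool.Agent.Lib.MP_fd1949_A.SheetsA
import Pool.Agent.Lib.MP_fd1949_A.BookAllZ

/-!
# The numbers for almost convex graphs
-/

namespace Pool.Agent.MP_fd1949_A

open Pool.Agent.MP_fd1949_co Pool.Agent.MP_fd1949_P Pool.Agent.MP_fd1949_C

/-- The distance of rows and columns. -/
def zq (M q : ℕ) : ℕ := 2 * ((q + nS M q + 1) + nS M q) + q

/-- The height of the low pages. -/
def aT (N : ℕ → ℕ) (k M q r w : ℕ) : ℕ := hts N w r (3 * zq M q + 1) (zq M q) k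

/-- The distance of the two sheets. -/
def aSep (N : ℕ → ℕ) (k M q r w : ℕ) : ℕ :=
  2 * ((q + nS M q + 1) + nS M q + N (2 * (aT N k M q r w + w) + r) + (aT N k M q r w + w)) + q + r

/-- The height of the lifts in the star exclusion. -/
def aY (N : ℕ → ℕ) (t q w s : ℕ) : ℕ := hts N w s (q + 1) 0 t

/-- The distance in the star exclusion. -/
def aC (N : ℕ → ℕ) (t q w s : ℕ) : ℕ :=
  2 * (w + aY N t q w s) + N (2 * (aY N t q w s + w) + s) + q + s

/-- The cost of a junction. -/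
def aJ (N : ℕ → ℕ) (k M q r w ρ : ℕ) : ℕ := N (2 * (aT N k M q r w + w) + ρ)

/-- The height of the high page. -/
def aΘ (N : ℕ → ℕ) (k M q r w ρ : ℕ) : ℕ :=
  hts N w r (3 * zq M q + 1) (aT N k M q r w + aJ N k M q r w ρ + q + 2 * zq M q) k

/-- The total height. -/
def aΛ (N : ℕ → ℕ) (k M q r w ρ : ℕ) : ℕ :=
  aT N k M q r w + aJ N k M q r w ρ + q + aΘ N k M q r w ρ

/-- The distance of the positions. -/
def aΔ (N : ℕ → ℕ) (k M q r w ρ : ℕ) : ℕ :=
  (zq M q + 1) + 2 * (w + aΛ N k M q r w ρ + ρ + aJ N k M q r w ρ) + q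

/-- The radius of the balls in the definition of the exit set. -/
def aR (N : ℕ → ℕ) (k M q r w ρ : ℕ) : ℕ := M * (aΔ N k M q r w ρ + r + 1) + r

/-- The final bound as a function of `s`, `r₂`, `r₃`. -/
def aD' (N : ℕ → ℕ) (t M q r w s r₂ r₃ : ℕ) : ℕ :=
  8 * (aR N (2 * t) M q r w r₃ + s) +
    2 * Fintype.card (Sym2 (Fin t)) *
      (20 * (aR N (2 * t) M q r w r₃ + s) + 2 * aR N (2 * t) M q r w r₃ + r₂ + r₃ + r + 1) +
    2 * (w + aΛ N (2 * t) M q r w r₃ + aY N t q w s + aY N t q w r₂)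

/-- The final bound. -/
def aD (N : ℕ → ℕ) (t M q r w : ℕ) : ℕ :=
  aD' N t M q r w (aSep N (2 * t) M q r w) (aC N t q w (aSep N (2 * t) M q r w))
    (aC N t q w (aC N t q w (aSep N (2 * t) M q r w)))

/-- The slab theorem with numbers: two colours in every slab. -/
theorem slabA (t : ℕ) : ∃ M : ℕ, ∀ (V : Type) (G : SimpleGraph V) (N : ℕ → ℕ) (f : V → ℕ)
    (F : V → ℕ → V) (q r w : ℕ), 1 ≤ q → ACon G N f F →
    FatMinorFree G (⊤ : SimpleGraph (Fin t)) q →
    ∀ a, ∃ χ : V → Bool, ∀ x y, x ∈ Slab f a w →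
      JChain G r {p | p ∈ Slab f a w ∧ χ p = χ x} x y → NearN G (aD N t M q r w) x y := by
  obtain ⟨M₀, hM₀⟩ := book_allZ t
  obtain ⟨M, hMpos, hMM⟩ : ∃ M, 0 < M ∧ M₀ ≤ M := ⟨M₀ + 1, Nat.succ_pos _, Nat.le_succ _⟩
  refine ⟨M, ?_⟩
  intro V G N f F q r w hq hA hfree a
  obtain ⟨s, hs⟩ : ∃ s, s = aSep N (2 * t) M q r w := ⟨_, rfl⟩
  obtain ⟨r₂, hr₂⟩ : ∃ r₂, r₂ = aC N t q w s := ⟨_, rfl⟩
  obtain ⟨r₃, hr₃⟩ : ∃ r₃, r₃ = aC N t q w r₂ := ⟨_, rfl⟩
  have hD : aD N t M q r w = aD' N t M q r w s r₂ r₃ := by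
    rw [hr₃, hr₂, hs]
    rfl
  rw [hD]
  by_cases hsmall : a < aΛ N (2 * t) M q r w r₃ + aY N t q w s + aY N t q w r₂
  · -- close to the root
    refine ⟨fun _ => true, fun x y hx hxy => ?_⟩
    have hy : y ∈ Slab f a w := (hxy.mono le_rfl (Y' := Slab f a w) fun p hp => hp.1).mem hx
    have h1 := hx.2
    have h2 := hy.2
    refine (hA.base.near_root hxy.reachable).mono ?_
    unfold aD'
    omega
  -- the general case
  have h1 : StarAt G (Slab f a w) t s r₂ := by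
    refine starA hA (q := q) (T := aY N t q w s) le_rfl (by omega) le_rfl ?_ hfree
    rw [hr₂]
    unfold aC
    omega
  have h2 : StarAt G (Slab f a w) t r₂ r₃ := by
    refine starA hA (q := q) (T := aY N t q w r₂) le_rfl (by omega) le_rfl ?_ hfree
    rw [hr₃]
    unfold aC
    omega
  have h3 : SheetsAt G (Slab f a w) M r s r₃ (aΔ N (2 * t) M q r w r₃) := by
    intro E σ z e hEY hσY hE hσ hfar hze hzz
    apply hfree
    have hne : E.Nonempty := ⟨e ⟨0, hMpos⟩, (hze _).2.1⟩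
    have hne' : σ.Nonempty := ⟨z ⟨0, hMpos⟩, (hze _).1⟩
    have hcst : ShA N (2 * t) q r w a s r₃ (aΔ N (2 * t) M q r w r₃) (zq M q + 1) (nS M q)
        (q + nS M q + 1) (zq M q) (aT N (2 * t) M q r w)
        (N (2 * (aT N (2 * t) M q r w + w) + r)) (aJ N (2 * t) M q r w r₃)
        (aΛ N (2 * t) M q r w r₃)
        (fun p => if p = 2 then aΘ N (2 * t) M q r w r₃ else aT N (2 * t) M q r w) := by
      constructor
      · exact hq
      · unfold zq
        omega
      · exact le_rfl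
      · exact le_rfl
      · exact le_rfl
      · intro p hp
        exact if_neg hp
      · simp only [if_true]
        unfold aΘ
        omega
      · simp only [if_true]
        unfold aΛ
        omega
      · omega
      · rw [hs]
        unfold aSep
        omega
      · unfold aΔ
        omega
    obtain ⟨𝔅⟩ := sheetsA hA hcst hEY hσY hE hσ hne hne' hfar hze hzz
    refine hM₀ V G M q _ (q + nS M q) _ _ _ _ 𝔅 ?_ hMM
    exact ⟨hq, le_rfl, le_rfl, le_rfl, by unfold zq; omega, Nat.lt_succ_self _⟩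
  have hsr : r ≤ s := by
    rw [hs]
    unfold aSep
    omega
  have hsr₂ : s ≤ r₂ := by
    rw [hr₂]
    unfold aC
    omega
  exact slab2 (R := aR N (2 * t) M q r w r₃ + s) (R₁ := aR N (2 * t) M q r w r₃)
    (A := 20 * (aR N (2 * t) M q r w r₃ + s) + 2 * aR N (2 * t) M q r w r₃ + r₂ + r₃) h1 h2 h3
    hsr hsr₂ le_rfl (by unfold aR; exact le_rfl) (by omega) (by omega) (by unfold aD'; omega)
    (by unfold aD'; omega)

end Pool.Agent.MP_fd1949_A
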