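import Mathlib
import Pool.Agent.Lib.MP_fd1949_C.LinBd
import Pool.Agent.Lib.MP_fd1949_A.NumA

/-!
# The numbers grow linearly if the cost does
-/

namespace Pool.Agent.MP_fd1949_A

open Pool.Agent.MP_fd1949_C

variable {N : ℕ → ℕ}

lemma lin_N {c : ℕ} (hN : ∀ i, N i ≤ c * (i + 1)) {g : ℕ → ℕ → ℕ → ℕ} (hg : LinF g) :
    LinF fun q r w => N (g q r w) :=
  ((hg.add (LinF.const 1)).mul c).mono fun _ _ _ => hN _

lemma lin_hts {c : ℕ} (hN : ∀ i, N i ≤ c * (i + 1)) {s g h₀ : ℕ → ℕ → ℕ → ℕ} (hs : LinF s)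
    (hg : LinF g) (hh : LinF h₀) (j : ℕ) :
    LinF fun q r w => hts N w (s q r w) (g q r w) (h₀ q r w) j := by
  induction j with
  | zero => exact hh
  | succ j ih => exact (ih.add (lin_N hN (((ih.add LinF.w).mul 2).add hs))).add hg

lemma lin_zq (M : ℕ) : LinF fun q _ _ => zq M q :=
  ((((LinF.q.add (lin_nS M)).add (LinF.const 1)).add (lin_nS M)).mul 2).add LinF.q

lemma lin_g (M : ℕ) : LinF fun q _ _ => 3 * zq M q + 1 :=
  ((lin_zq M).mul 3).add (LinF.const 1)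

lemma lin_aT {c : ℕ} (hN : ∀ i, N i ≤ c * (i + 1)) (k M : ℕ) :
    LinF fun q r w => aT N k M q r w :=
  lin_hts hN LinF.r (lin_g M) (lin_zq M) k

lemma lin_aSep {c : ℕ} (hN : ∀ i, N i ≤ c * (i + 1)) (k M : ℕ) :
    LinF fun q r w => aSep N k M q r w := by
  have hT := lin_aT hN k M
  exact ((((((LinF.q.add (lin_nS M)).add (LinF.const 1)).add (lin_nS M)).add
    (lin_N hN (((hT.add LinF.w).mul 2).add LinF.r))).add (hT.add LinF.w)).mul 2).add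
    LinF.q |>.add LinF.r

lemma lin_aY {c : ℕ} (hN : ∀ i, N i ≤ c * (i + 1)) (t : ℕ) {s : ℕ → ℕ → ℕ → ℕ} (hs : LinF s) :
    LinF fun q r w => aY N t q w (s q r w) :=
  lin_hts hN hs (LinF.q.add (LinF.const 1)) (LinF.const 0) t

lemma lin_aC {c : ℕ} (hN : ∀ i, N i ≤ c * (i + 1)) (t : ℕ) {s : ℕ → ℕ → ℕ → ℕ} (hs : LinF s) :
    LinF fun q r w => aC N t q w (s q r w) := by
  have hY := lin_aY hN t hs
  exact ((((LinF.w.add hY).mul 2).add (lin_N hN (((hY.add LinF.w).mul 2).add hs))).add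
    LinF.q).add hs

lemma lin_aJ {c : ℕ} (hN : ∀ i, N i ≤ c * (i + 1)) (k M : ℕ) {ρ : ℕ → ℕ → ℕ → ℕ} (hρ : LinF ρ) :
    LinF fun q r w => aJ N k M q r w (ρ q r w) :=
  lin_N hN ((((lin_aT hN k M).add LinF.w).mul 2).add hρ)

lemma lin_aΘ {c : ℕ} (hN : ∀ i, N i ≤ c * (i + 1)) (k M : ℕ) {ρ : ℕ → ℕ → ℕ → ℕ} (hρ : LinF ρ) :
    LinF fun q r w => aΘ N k M q r w (ρ q r w) :=
  lin_hts hN LinF.r (lin_g M)
    ((((lin_aT hN k M).add (lin_aJ hN k M hρ)).add LinF.q).add ((lin_zq M).mul 2)) k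

lemma lin_aΛ {c : ℕ} (hN : ∀ i, N i ≤ c * (i + 1)) (k M : ℕ) {ρ : ℕ → ℕ → ℕ → ℕ} (hρ : LinF ρ) :
    LinF fun q r w => aΛ N k M q r w (ρ q r w) :=
  (((lin_aT hN k M).add (lin_aJ hN k M hρ)).add LinF.q).add (lin_aΘ hN k M hρ)

lemma lin_aΔ {c : ℕ} (hN : ∀ i, N i ≤ c * (i + 1)) (k M : ℕ) {ρ : ℕ → ℕ → ℕ → ℕ} (hρ : LinF ρ) :
    LinF fun q r w => aΔ N k M q r w (ρ q r w) :=
  (((lin_zq M).add (LinF.const 1)).add
    ((((LinF.w.add (lin_aΛ hN k M hρ)).add hρ).add (lin_aJ hN k M hρ)).mul 2)).add LinF.q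

lemma lin_aR {c : ℕ} (hN : ∀ i, N i ≤ c * (i + 1)) (k M : ℕ) {ρ : ℕ → ℕ → ℕ → ℕ} (hρ : LinF ρ) :
    LinF fun q r w => aR N k M q r w (ρ q r w) :=
  ((((lin_aΔ hN k M hρ).add LinF.r).add (LinF.const 1)).mul M).add LinF.r

lemma lin_aD' {c : ℕ} (hN : ∀ i, N i ≤ c * (i + 1)) (t M : ℕ) {s r₂ r₃ : ℕ → ℕ → ℕ → ℕ}
    (hs : LinF s) (h₂ : LinF r₂) (h₃ : LinF r₃) :
    LinF fun q r w => aD' N t M q r w (s q r w) (r₂ q r w) (r₃ q r w) := by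
  have hR := lin_aR hN (2 * t) M h₃
  exact (((hR.add hs).mul 8).add
    (((((((hR.add hs).mul 20).add (hR.mul 2)).add h₂).add h₃).add LinF.r |>.add
      (LinF.const 1)).mul (2 * Fintype.card (Sym2 (Fin t))))).add
    ((((LinF.w.add (lin_aΛ hN (2 * t) M h₃)).add (lin_aY hN t hs)).add (lin_aY hN t h₂)).mul 2)

/-- The final bound is linear if the cost function is. -/
theorem lin_aD {c : ℕ} (hN : ∀ i, N i ≤ c * (i + 1)) (t M : ℕ) :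
    ∃ C, ∀ q r w, aD N t M q r w ≤ C * (q + r + w + 1) := by
  have hs := lin_aSep hN (2 * t) M
  have h₂ := lin_aC hN t hs
  have h₃ := lin_aC hN t h₂
  exact lin_aD' hN t M hs h₂ h₃

end Pool.Agent.MP_fd1949_A
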