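import Mathlib
import Pool.Agent.Lib.MP_fd1949_A.FillA

/-!
# Almost convexity is a local condition; combable graphs
-/

namespace Pool.Agent.MP_fd1949_A

open Pool.Agent.MP_fd1949_co Pool.Agent.MP_fd1949_P Pool.Agent.MP_fd1949_C

variable {V : Type} {G : SimpleGraph V} {o : V → V}

/-- The cost of `j` steps. -/
def locN (e c : ℕ) : ℕ → ℕ → ℕ
  | 0, m => m
  | j + 1, m => locN e c j (2 * (e + 1) + (c + 1) * m)

lemma locN_mono (e c : ℕ) (j : ℕ) {m m' : ℕ} (h : m ≤ m') : locN e c j m ≤ locN e c j m' := by
  induction j generalizing m m' with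
  | zero => exact h
  | succ j ih => exact ih (Nat.add_le_add_left (Nat.mul_le_mul_left _ h) _)

/-- One step: a walk in the ball of radius `L + 1` can be replaced by a walk in the ball of radius
`L`. -/
theorem loc_step (ho : Rooted G o) {c e : ℕ} (h : Fill G o (2 * e + 3) c e) {γ : V → ℕ → V}
    (hC : Combing G 2 0 (fun x => G.dist (o x) x) γ) {L : ℕ} {x y : V} (w : G.Walk x y)
    (hs : ∀ z ∈ w.support, G.dist (o z) z ≤ L + 1) (hx : G.dist (o x) x ≤ L)
    (hy : G.dist (o y) y ≤ L) : ∃ w' : G.Walk x y, w'.length ≤ 2 * (e + 1) + (c + 1) * w.length ∧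
      ∀ z ∈ w'.support, G.dist (o z) z ≤ L := by
  set f : V → ℕ := fun x => G.dist (o x) x with hf
  have hx' : f x ≤ L := hx
  have hy' : f y ≤ L := hy
  obtain ⟨B, hB⟩ : ∃ B, B = L - e := ⟨_, rfl⟩
  -- the projection
  set pr : V → V := fun v => if B ≤ f v then γ v B else v with hpr
  have hprf : ∀ v, f (pr v) ≤ B := by
    intro v
    simp only [hpr]
    split_ifs with hv
    · exact (hC.lev v B hv).le
    · omega
  have hnear : ∀ v, NearN G (f v - B) v (pr v) := by
    intro v
    simp only [hpr]
    split_ifs with hv
    · obtain ⟨w, hw, -⟩ := col_walk hC v hv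
      exact ⟨w, hw⟩
    · exact (NearN.refl 0 v).mono (by omega)
  have key : ∀ (u v : V) (w : G.Walk u v), (∀ z ∈ w.support, f z ≤ L + 1) →
      ∃ w' : G.Walk (pr u) (pr v), w'.length ≤ (c + 1) * w.length ∧
        ∀ z ∈ w'.support, f z ≤ L := by
    intro u v w
    induction w with
    | @nil u =>
      intro _
      refine ⟨.nil, by simp, fun z hz => ?_⟩
      rw [SimpleGraph.Walk.support_nil, List.mem_singleton] at hz
      rw [hz]
      exact (hprf u).trans (by omega)
    | @cons u u' v hadj w ih =>
      intro hs
      have hsu := hs u (SimpleGraph.Walk.start_mem_support _)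
      have hs' : ∀ z ∈ w.support, f z ≤ L + 1 := fun z hz =>
        hs z (by rw [SimpleGraph.Walk.support_cons]; exact List.mem_cons_of_mem _ hz)
      have hsu' := hs' u' w.start_mem_support
      obtain ⟨w', hw', hs'⟩ := ih hs'
      have hone : ∃ w1 : G.Walk (pr u) (pr u'), w1.length ≤ c + 1 ∧ ∀ z ∈ w1.support, f z ≤ L := by
        have hl1 : f u ≤ f u' + 1 := hC.lip _ _ hadj
        have hl2 : f u' ≤ f u + 1 := hC.lip _ _ hadj.symm
        by_cases h1 : B ≤ f u ∧ B ≤ f u'
        · obtain ⟨h1, h2⟩ := h1
          have e1 : f (γ u B) = B := hC.lev u B h1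
          have e2 : f (γ u' B) = B := hC.lev u' B h2
          have hpu : pr u = γ u B := if_pos h1
          have hpu' : pr u' = γ u' B := if_pos h2
          rcases le_total e L with he | he
          · have hn : NearN G (2 * e + 3) (γ u B) (γ u' B) := by
              have n1 := hnear u
              have n2 := hnear u'
              rw [hpu] at n1
              rw [hpu'] at n2
              exact ((n1.symm.trans (NearN.of_adj hadj)).trans n2).mono (by omega)
            obtain ⟨w1, hw1, hs1⟩ := h.walk ho (e1.trans e2.symm) hn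
            rw [hpu, hpu']
            refine ⟨w1, hw1.trans (Nat.le_succ _), fun z hz => ?_⟩
            have h3 : f z ≤ f (γ u B) + e := hs1 z hz
            omega
          · have hB0 : B = 0 := by omega
            have hroot : γ u B = γ u' B := by
              rw [hB0]
              exact hC.root u u' hadj.reachable
            rw [hpu, hpu', ← hroot]
            refine ⟨.nil, by simp, fun z hz => ?_⟩
            rw [SimpleGraph.Walk.support_nil, List.mem_singleton] at hz
            rw [hz]
            omega
        · -- one of them is not changed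
          have hpu : pr u = u := by
            simp only [hpr]
            split_ifs with h2
            · have h3 : f u = B := by omega
              rw [← h3]
              exact hC.self u
            · rfl
          have hpu' : pr u' = u' := by
            simp only [hpr]
            split_ifs with h2
            · have h3 : f u' = B := by omega
              rw [← h3]
              exact hC.self u'
            · rfl
          rw [hpu, hpu']
          refine ⟨.cons hadj .nil, by simp, fun z hz => ?_⟩
          rw [SimpleGraph.Walk.support_cons, SimpleGraph.Walk.support_nil, List.mem_cons,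
            List.mem_singleton] at hz
          have h3 := hprf u
          have h4 := hprf u'
          rw [hpu] at h3
          rw [hpu'] at h4
          rcases hz with rfl | rfl <;> omega
      obtain ⟨w1, hw1, hs1⟩ := hone
      refine ⟨w1.append w', ?_, fun z hz => ?_⟩
      · rw [SimpleGraph.Walk.length_append, SimpleGraph.Walk.length_cons, Nat.mul_succ]
        omega
      · rcases (SimpleGraph.Walk.mem_support_append_iff _ _).1 hz with hz | hz
        · exact hs1 z hz
        · exact hs' z hz
  have hend : ∀ v, f v ≤ L → ∃ w : G.Walk v (pr v), w.length ≤ e + 1 ∧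
      ∀ z ∈ w.support, f z ≤ L := by
    intro v hv
    by_cases hvB : B ≤ f v
    · have hpv : pr v = γ v B := if_pos hvB
      rw [hpv]
      obtain ⟨w, hw, hs⟩ := col_walk hC v hvB
      refine ⟨w, ?_, fun z hz => ?_⟩
      · refine hw.trans ?_
        show f v - B ≤ e + 1
        omega
      · exact (hs z hz).trans hv
    · have hpv : pr v = v := if_neg hvB
      rw [hpv]
      refine ⟨.nil, by simp, fun z hz => ?_⟩
      rw [SimpleGraph.Walk.support_nil, List.mem_singleton] at hz
      rw [hz]
      exact hv
  obtain ⟨w1, hw1, hs1⟩ := hend x hx'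
  obtain ⟨w2, hw2, hs2⟩ := key x y w hs
  obtain ⟨w3, hw3, hs3⟩ := hend y hy'
  refine ⟨w1.append (w2.append w3.reverse), ?_, fun z hz => ?_⟩
  · rw [SimpleGraph.Walk.length_append, SimpleGraph.Walk.length_append,
      SimpleGraph.Walk.length_reverse]
    omega
  · rcases (SimpleGraph.Walk.mem_support_append_iff _ _).1 hz with hz | hz
    · exact hs1 z hz
    rcases (SimpleGraph.Walk.mem_support_append_iff _ _).1 hz with hz | hz
    · exact hs2 z hz
    · rw [SimpleGraph.Walk.support_reverse, List.mem_reverse] at hz
      exact hs3 z hz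

/-- Almost convexity is a local condition. -/
theorem fill_local (ho : Rooted G o) {c e : ℕ} (h : Fill G o (2 * e + 3) c e) (i : ℕ) :
    Fill G o i (locN e c i i) 0 := by
  obtain ⟨γ, hγ⟩ := exists_geo ho.1
  have hC := combing_geo ho.1 ho.2 hγ
  have key : ∀ (j : ℕ) (x y : V) (w : G.Walk x y) (n : ℕ), G.dist (o x) x ≤ n →
      G.dist (o y) y ≤ n → (∀ z ∈ w.support, G.dist (o z) z ≤ n + j) →
      ∃ w' : G.Walk x y, w'.length ≤ locN e c j w.length ∧
        ∀ z ∈ w'.support, G.dist (o z) z ≤ n := by
    intro j
    induction j with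
    | zero => exact fun x y w n _ _ hs => ⟨w, le_rfl, hs⟩
    | succ j ih =>
      intro x y w n hx hy hs
      obtain ⟨w1, hw1, hs1⟩ := loc_step ho h hC (L := n + j) w hs (by omega) (by omega)
      obtain ⟨w2, hw2, hs2⟩ := ih x y w1 n hx hy hs1
      exact ⟨w2, hw2.trans (locN_mono e c j hw1), hs2⟩
  classical
  refine fill_of_walk ho fun x y hxy hn => ?_
  obtain ⟨w, hw⟩ := hn
  obtain ⟨w', hw', hs'⟩ := key i x y w (G.dist (o x) x) le_rfl hxy.ge fun z hz =>
    hC.f_near (n := i) (x := z) (y := x)
      (NearN.symm ⟨w.takeUntil z hz, (w.length_takeUntil_le_length hz).trans hw⟩)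
  exact ⟨w', hw'.trans (locN_mono e c i hw), hs'⟩

/-- Graphs with a geodesic combing of slow divergence are almost convex. -/
theorem fill_of_combable {k h : ℕ → ℕ} (hk : ∀ i, top k (h i + 2 * i) ≤ h i)
    (hG : Combable k G) : ∃ o, Rooted G o ∧ ∀ i, Fill G o i (2 * (h i + i) + i * h i) 0 := by
  obtain ⟨o, γ, h1, h2, h3, h4⟩ := hG
  have ho : Rooted G o := ⟨h1, h2⟩
  refine ⟨o, ho, fun i => fill_of_walk ho fun x y hxy hn => ?_⟩
  have hC := combing_of h1 h2 h3 h4 (h i + 2 * i)
  set f : V → ℕ := fun x => G.dist (o x) x with hf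
  have hfy : f x = f y := hxy
  obtain ⟨m, hm⟩ : ∃ m, m = f x - (h i + i) := ⟨_, rfl⟩
  -- the walk between the columns
  have key : ∀ (u v : V) (w : G.Walk u v) (a : ℕ), NearN G a x u → a + w.length ≤ i →
      ∃ w' : G.Walk (γ u m) (γ v m), w'.length ≤ w.length * h i ∧
        ∀ z ∈ w'.support, f z ≤ f x := by
    intro u v w
    induction w with
    | @nil u =>
      intro a ha hai
      rw [SimpleGraph.Walk.length_nil] at hai
      have g1 := hC.f_near ha
      have g3 : f (γ u m) = m := hC.lev u m (by omega)
      refine ⟨.nil, by simp, fun z hz => ?_⟩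
      rw [SimpleGraph.Walk.support_nil, List.mem_singleton] at hz
      rw [hz]
      omega
    | @cons u u' v hadj w ih =>
      intro a ha hai
      rw [SimpleGraph.Walk.length_cons] at hai
      obtain ⟨w', hw', hs'⟩ := ih (a + 1) (ha.trans (NearN.of_adj hadj)) (by omega)
      have g1 := hC.f_near ha
      have g2 := hC.f_near ha.symm
      have g1' := hC.f_near (ha.trans (NearN.of_adj hadj))
      have g2' := hC.f_near (ha.trans (NearN.of_adj hadj)).symm
      have g3 : f (γ u m) = m := hC.lev u m (by omega)
      have hd : NearN G (if m = 0 then 0 else h i) (γ u m) (γ u' m) := by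
        split_ifs with h0
        · rw [h0, (h3 u).1, (h3 u').1, h2 u u' hadj]
          exact NearN.refl _ _
        · exact (hC.fellow_adj hadj (m := m) (by omega) (by omega) (by omega)).mono (hk i)
      obtain ⟨w1, hw1, hs1⟩ := NearN.exists_walk hd
      refine ⟨w1.append w', ?_, fun z hz => ?_⟩
      · rw [SimpleGraph.Walk.length_append, SimpleGraph.Walk.length_cons, Nat.add_mul, Nat.one_mul]
        have h7 : (if m = 0 then 0 else h i) ≤ h i := by split_ifs <;> omega
        omega
      · rcases (SimpleGraph.Walk.mem_support_append_iff _ _).1 hz with hz | hz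
        · have h8 := hC.f_near (hs1 z hz).1.symm
          split_ifs at h8 with h0 <;> omega
        · exact hs' z hz
  obtain ⟨w0, hw0⟩ := hn
  obtain ⟨w2, hw2, hs2⟩ := key x y w0 0 (NearN.refl _ _) (by omega)
  obtain ⟨w1, hw1, hs1⟩ := col_walk hC x (m := m) (by omega)
  obtain ⟨w3, hw3, hs3⟩ := col_walk hC y (m := m) (by omega)
  refine ⟨w1.append (w2.append w3.reverse), ?_, fun z hz => ?_⟩
  · rw [SimpleGraph.Walk.length_append, SimpleGraph.Walk.length_append,
      SimpleGraph.Walk.length_reverse]
    have h7 : w0.length * h i ≤ i * h i := Nat.mul_le_mul_right _ hw0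
    omega
  · rcases (SimpleGraph.Walk.mem_support_append_iff _ _).1 hz with hz | hz
    · exact hs1 z hz
    rcases (SimpleGraph.Walk.mem_support_append_iff _ _).1 hz with hz | hz
    · exact hs2 z hz
    · rw [SimpleGraph.Walk.support_reverse, List.mem_reverse] at hz
      have h8 := hs3 z hz
      show f z ≤ f x + 0
      omega

end Pool.Agent.MP_fd1949_A
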