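import Mathlib
import Pool.Agent.Lib.MP_fd1949_A.FillA

/-!
# Weakly modular graphs
-/

namespace Pool.Agent.MP_fd1949_A

open Pool.Agent.MP_fd1949_co Pool.Agent.MP_fd1949_P Pool.Agent.MP_fd1949_C

variable {V : Type} {G : SimpleGraph V} {o : V → V}

/-- The weight of a walk: horizontal edges count twice. -/
def wt (f : V → ℕ) : ∀ {x y : V}, G.Walk x y → ℕ
  | _, _, .nil => 0
  | x, _, .cons (v := z) _ w => (if f x = f z then 2 else 1) + wt f w

lemma wt_append (f : V → ℕ) {x y z : V} (w : G.Walk x y) (w' : G.Walk y z) :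
    wt f (w.append w') = wt f w + wt f w' := by
  induction w with
  | nil => simp [wt]
  | cons h w ih => rw [SimpleGraph.Walk.cons_append, wt, wt, ih, Nat.add_assoc]

lemma length_le_wt (f : V → ℕ) {x y : V} (w : G.Walk x y) : w.length ≤ wt f w := by
  induction w with
  | nil => simp
  | cons h w ih =>
    rw [SimpleGraph.Walk.length_cons, wt]
    split_ifs <;> omega

lemma wt_le (f : V → ℕ) {x y : V} (w : G.Walk x y) : wt f w ≤ 2 * w.length := by
  induction w with
  | nil => simp [wt]
  | cons h w ih =>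
    rw [SimpleGraph.Walk.length_cons, wt]
    split_ifs <;> omega

/-- A walk from `x` to `y` of weight at most `c` in the ball `f ≤ L`. -/
def WR (G : SimpleGraph V) (f : V → ℕ) (L c : ℕ) (x y : V) : Prop :=
  ∃ w : G.Walk x y, wt f w ≤ c ∧ ∀ z ∈ w.support, f z ≤ L

lemma WR.trans {f : V → ℕ} {L c c' : ℕ} {x y z : V} (h : WR G f L c x y) (h' : WR G f L c' y z) :
    WR G f L (c + c') x z := by
  obtain ⟨w, hw, hs⟩ := h
  obtain ⟨w', hw', hs'⟩ := h'
  refine ⟨w.append w', ?_, fun u hu => ?_⟩
  · rw [wt_append]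
    omega
  · rcases (SimpleGraph.Walk.mem_support_append_iff _ _).1 hu with hu | hu
    · exact hs u hu
    · exact hs' u hu

lemma WR.refl {f : V → ℕ} {L c : ℕ} {x : V} (h : f x ≤ L) : WR G f L c x x := by
  refine ⟨.nil, by simp [wt], fun u hu => ?_⟩
  rw [SimpleGraph.Walk.support_nil, List.mem_singleton] at hu
  rw [hu]
  exact h

lemma WR.edge {f : V → ℕ} {L : ℕ} {x y : V} (h : G.Adj x y) (hx : f x ≤ L) (hy : f y ≤ L) :
    WR G f L (if f x = f y then 2 else 1) x y := by
  refine ⟨.cons h .nil, by simp [wt], fun u hu => ?_⟩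
  rw [SimpleGraph.Walk.support_cons, SimpleGraph.Walk.support_nil, List.mem_cons,
    List.mem_singleton] at hu
  rcases hu with rfl | rfl
  · exact hx
  · exact hy

/-- A peak can be replaced. -/
lemma WR.peak {f : V → ℕ} {L : ℕ}
    (hQ : ∀ v w z, G.Adj v z → G.Adj w z → v ≠ w → ¬ G.Adj v w → f v = f w → f v < f z →
      ∃ x, G.Adj v x ∧ G.Adj w x ∧ f x < f v) {x z y : V} (hxz : G.Adj x z) (hyz : G.Adj y z)
    (hx : f x = L) (hy : f y = L) (hz : L < f z) : WR G f L 2 x y := by
  by_cases hxy : x = y
  · subst hxy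
    exact WR.refl hx.le
  by_cases hadj : G.Adj x y
  · have := WR.edge (f := f) (L := L) hadj hx.le hy.le
    rwa [if_pos (hx.trans hy.symm)] at this
  · obtain ⟨u, h1, h2, h3⟩ := hQ x y z hxz hyz hxy hadj (hx.trans hy.symm) (by omega)
    have e1 := WR.edge (f := f) (L := L) h1 hx.le (by omega)
    have e2 := WR.edge (f := f) (L := L) h2.symm (by omega) hy.le
    rw [if_neg (by omega)] at e1 e2
    exact e1.trans e2

/-- A walk in the ball of radius `L + 1` can be replaced by a walk in the ball of radius `L`. -/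
lemma WR.down {f : V → ℕ} {L : ℕ} (hlip : ∀ x y, G.Adj x y → f x ≤ f y + 1)
    (hT : ∀ v w, G.Adj v w → f v = f w → ∃ x, G.Adj v x ∧ G.Adj w x ∧ f x < f v)
    (hQ : ∀ v w z, G.Adj v z → G.Adj w z → v ≠ w → ¬ G.Adj v w → f v = f w → f v < f z →
      ∃ x, G.Adj v x ∧ G.Adj w x ∧ f x < f v) :
    ∀ (n : ℕ) (x y : V) (w : G.Walk x y), w.length ≤ n → f x ≤ L → f y ≤ L →
      (∀ z ∈ w.support, f z ≤ L + 1) → WR G f L (wt f w) x y := by
  intro n
  induction n with
  | zero =>
    intro x y w hw hx hy hs
    cases w with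
    | nil => exact WR.refl hx
    | cons h w => rw [SimpleGraph.Walk.length_cons] at hw; omega
  | succ n ih =>
    intro x y w hw hx hy hs
    cases w with
    | nil => exact WR.refl hx
    | @cons _ x₁ _ h1 w =>
      rw [SimpleGraph.Walk.length_cons] at hw
      have hs1 : ∀ z ∈ w.support, f z ≤ L + 1 := fun z hz =>
        hs z (by rw [SimpleGraph.Walk.support_cons]; exact List.mem_cons_of_mem _ hz)
      rw [wt]
      by_cases hx1 : f x₁ ≤ L
      · exact (WR.edge h1 hx hx1).trans (ih x₁ y w (by omega) hx1 hy hs1)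
      have hx1' := hs1 x₁ w.start_mem_support
      have hl1 := hlip _ _ h1.symm
      have hxL : f x = L := by omega
      rw [if_neg (by omega)]
      cases w with
      | nil => exact absurd hy hx1
      | @cons _ x₂ _ h2 w =>
        rw [SimpleGraph.Walk.length_cons] at hw
        have hs2 : ∀ z ∈ w.support, f z ≤ L + 1 := fun z hz =>
          hs1 z (by rw [SimpleGraph.Walk.support_cons]; exact List.mem_cons_of_mem _ hz)
        rw [wt]
        have hl2 := hlip _ _ h2
        have hx2 := hs2 x₂ w.start_mem_support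
        by_cases hx2L : f x₂ = L + 1
        · -- a horizontal edge
          rw [if_pos (by omega)]
          obtain ⟨u, h3, h4, h5⟩ := hT x₁ x₂ h2 (by omega)
          have h6 := hlip _ _ h3
          have hp : WR G f L 2 x u := WR.peak hQ h1 h3.symm hxL (by omega) (by omega)
          have h7 := ih u y (.cons h4.symm w) (by rw [SimpleGraph.Walk.length_cons]; omega)
            (by omega) hy (by
              intro z hz
              rw [SimpleGraph.Walk.support_cons, List.mem_cons] at hz
              rcases hz with rfl | hz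
              · omega
              · exact hs2 z hz)
          rw [wt, if_neg (by omega)] at h7
          have h8 := hp.trans h7
          rwa [show 1 + (2 + wt f w) = 2 + (1 + wt f w) by omega]
        · rw [if_neg (by omega)]
          have hp : WR G f L 2 x x₂ := WR.peak hQ h1 h2.symm hxL (by omega) (by omega)
          have h7 := ih x₂ y w (by omega) (by omega) hy hs2
          have h8 := hp.trans h7
          rwa [show 1 + (1 + wt f w) = 2 + wt f w by omega]

/-- In a graph with the triangle and the quadrangle condition, points of a sphere are joined inside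
the ball by walks of length at most twice their distance. -/
theorem fill_of_modular (ho : Rooted G o) (hm : Modular G o) (i : ℕ) : Fill G o i (2 * i) 0 := by
  set f : V → ℕ := fun x => G.dist (o x) x with hf
  have hlip : ∀ x y, G.Adj x y → f x ≤ f y + 1 := by
    intro x y hxy
    show G.dist (o x) x ≤ G.dist (o y) y + 1
    rw [ho.2 x y hxy]
    exact dist_adj (ho.1 y) hxy
  have hoo : ∀ v w, G.Adj v w → G.dist (o v) w = f w := fun v w h => by
    show _ = G.dist (o w) w
    rw [ho.2 v w h]
  have hT : ∀ v w, G.Adj v w → f v = f w → ∃ x, G.Adj v x ∧ G.Adj w x ∧ f x < f v := by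
    intro v w hvw hfv
    obtain ⟨x, h1, h2, h3⟩ := hm.1 v w hvw (by rw [hoo v w hvw]; exact hfv)
    rw [hoo v x h1] at h3
    exact ⟨x, h1, h2, h3⟩
  have hQ : ∀ v w z, G.Adj v z → G.Adj w z → v ≠ w → ¬ G.Adj v w → f v = f w → f v < f z →
      ∃ x, G.Adj v x ∧ G.Adj w x ∧ f x < f v := by
    intro v w z hvz hwz hvw hadj hfv hfz
    have hovw : o v = o w := (ho.2 v z hvz).trans (ho.2 w z hwz).symm
    obtain ⟨x, h1, h2, h3⟩ := hm.2 v w z hvz hwz hvw hadj (by
      rw [show G.dist (o v) w = f w by rw [hovw]]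
      exact hfv) (by
      rw [hoo v z hvz]
      exact hfz)
    rw [hoo v x h1] at h3
    exact ⟨x, h1, h2, h3⟩
  have key : ∀ (j : ℕ) (x y : V) (c n : ℕ), f x ≤ n → f y ≤ n → WR G f (n + j) c x y →
      WR G f n c x y := by
    intro j
    induction j with
    | zero => exact fun x y c n _ _ h => h
    | succ j ih =>
      intro x y c n hx hy h
      obtain ⟨w, hw, hs⟩ := h
      obtain ⟨w', hw', hs'⟩ := WR.down hlip hT hQ (L := n + j) w.length x y w le_rfl (by omega)
        (by omega) hs
      exact ih x y c n hx hy ⟨w', hw'.trans hw, hs'⟩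
  refine fill_of_walk ho fun x y hxy hn => ?_
  classical
  obtain ⟨w, hw⟩ := hn
  have hxy' : f x = f y := hxy
  obtain ⟨w', hw', hs'⟩ := key i x y (2 * i) (f x) le_rfl hxy'.ge
    ⟨w, (wt_le f w).trans (by omega), fun z hz => by
      have h1 := f_near hlip (n := i) (x := z) (y := x)
        (NearN.symm ⟨w.takeUntil z hz, (w.length_takeUntil_le_length hz).trans hw⟩)
      exact h1⟩
  exact ⟨w', (length_le_wt f w').trans hw', hs'⟩

end Pool.Agent.MP_fd1949_A
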