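import Mathlib
import Pool.Agent.Lib.MP_fd1949_P.Comp
import Pool.Agent.Lib.MP_fd1949_C.Spread
import Pool.Agent.Lib.MP_fd1949_A.GridAll
import Pool.Agent.Lib.MP_fd1949_A.LinA

/-!
# Almost convex graphs without fat planar minor: slabs have bounded components
-/

namespace Pool.Agent.MP_fd1949_A

open Pool.Agent.MP_fd1949_co Pool.Agent.MP_fd1949_P Pool.Agent.MP_fd1949_C

/-- The distance of the positions. -/
def pΔ (N : ℕ → ℕ) (k M q r w : ℕ) : ℕ := (zq M q + 1) + 2 * (w + aT N k M q r w)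

/-- The bound for the components of a slab. -/
def pD (N : ℕ → ℕ) (k M q r w : ℕ) : ℕ :=
  M * (pΔ N k M q r w + r + 1) + 2 * (w + aT N k M q r w)

/-- The comb of a connected set with far apart points. -/
theorem combP {V : Type} {G : SimpleGraph V} {N : ℕ → ℕ} {f : V → ℕ} {F : V → ℕ → V}
    (hA : ACon G N f F) {k M q₂ Δ a w r T : ℕ} (hT : hts N w r (3 * q₂ + 1) q₂ k ≤ T)
    (ha : T ≤ a) {E : Set V} (hE : JConn G r E) (hEY : E ⊆ Slab f a w) (hne : E.Nonempty)
    (e : Fin M → V) (he : ∀ c, e c ∈ E)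
    (hfar : ∀ c c', c ≠ c' → ¬ NearN G (Δ + 2 * (w + T)) (e c) (e c')) :
    Nonempty (ZComb G k M q₂ Δ T) := by
  set h : ℕ → ℕ := hts N w r (3 * q₂ + 1) q₂ with hh
  set Kr : ℕ → ℕ := fun m => N (2 * (h m + w) + r) with hKr
  have hstep : ∀ i j, i < j → h i + Kr i + (3 * q₂ + 1) ≤ h j := fun i j hij =>
    hts_step _ _ _ _ _ hij
  have h0 : ∀ i, q₂ ≤ h i := fun i => hts_mono N w r (3 * q₂ + 1) q₂ (Nat.zero_le i)
  have hr : ∀ m : Fin k, q₂ ≤ h m ∧ h m + Kr m + (3 * q₂ + 1) ≤ T := by
    intro m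
    have h1 := hstep m k m.isLt
    have h2 := h0 m
    omega
  obtain ⟨C, -⟩ := combA hA (Δ := Δ) (q₂ := q₂) (dm := a - T) (Θ := T) hE hEY hne e he
    (fun n => a - T + n) (fun n hn => by omega) (fun n n' hn hn' => by omega)
    (fun n hn => by omega) (fun m : Fin k => a - h m) (fun m => Kr m) (fun m => T - h m)
    (fun m => T - h m - Kr m - q₂) (fun m => T - h m + q₂)
    (fun m => by have := hr m; omega)
    (fun m => by
      have h1 := hr m
      simp only [hKr]
      rw [show a + w - (a - h m) = h m + w by omega])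
    (fun m => by have := hr m; omega)
    (fun m => by have := hr m; omega)
    (fun m m' hmm => by
      have h1 := hr m
      have h2 := hr m'
      have h3 := hstep m m' hmm
      omega)
    (fun m n hn h1 h2 => by
      have h3 := hr m
      omega)
    (fun m m' hmm => by
      have h1 := hr m
      have h2 := hr m'
      have h3 := hstep m m' hmm
      left
      omega)
    (fun c c' hcc hn => hfar c c' hcc (hn.mono (by omega)))
  exact ⟨C⟩

/-- The components of the slabs are bounded. -/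
theorem slabP (m k : ℕ) : ∃ M : ℕ, ∀ (V : Type) (G : SimpleGraph V) (N : ℕ → ℕ) (f : V → ℕ)
    (F : V → ℕ → V) (q r w : ℕ), 1 ≤ q → ACon G N f F →
    FatMinorFree G (⊤ : SimpleGraph (Fin m)) q → FatMinorFree G (grid k) q →
    ∀ a, ∀ x y, x ∈ Slab f a w → JChain G r (Slab f a w) x y →
      NearN G (pD N (m + k) M q r w) x y := by
  obtain ⟨M, hM⟩ := grid_allZ m k
  refine ⟨M, ?_⟩
  intro V G N f F q r w hq hA hfree1 hfree2 a x y hx hxy
  by_cases hsmall : a < aT N (m + k) M q r w
  · -- close to the root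
    have hy : y ∈ Slab f a w := hxy.mem hx
    have h1 := hx.2
    have h2 := hy.2
    refine (hA.base.near_root hxy.reachable).mono ?_
    unfold pD
    omega
  by_contra hnn
  obtain ⟨e, he, hee⟩ := spread (jconn_comp (G := G) (s := r) (Y := Slab f a w) (x := x))
    ⟨hx, JChain.refl x⟩ ⟨hxy.mem hx, hxy⟩ M (pΔ N (m + k) M q r w)
    (fun h => hnn (h.mono (by unfold pD; omega)))
  obtain ⟨C⟩ := combP hA (k := m + k) (M := M) (q₂ := zq M q) (Δ := zq M q + 1)
    (T := aT N (m + k) M q r w) le_rfl (by omega) (jconn_comp (G := G) (s := r)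
      (Y := Slab f a w) (x := x)) (fun p hp => hp.1) ⟨x, hx, JChain.refl x⟩ e he
    (fun c c' hcc hn => hee c c' hcc (hn.mono (by unfold pΔ; exact le_rfl)))
  have hc : ZCst M q (nS M q) (q + nS M q) (q + nS M q + 1) (zq M q) (zq M q + 1) :=
    ⟨hq, le_rfl, le_rfl, le_rfl, by unfold zq; omega, Nat.lt_succ_self _⟩
  rcases hM V G M q _ _ _ _ _ _ C hc le_rfl with h | h
  · exact hfree1 h
  · exact hfree2 h

/-- Two colours. -/
theorem colP (m k : ℕ) : ∃ M : ℕ, ∀ (V : Type) (G : SimpleGraph V) (N : ℕ → ℕ) (f : V → ℕ)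
    (F : V → ℕ → V) (q r : ℕ), 1 ≤ q → ACon G N f F →
    FatMinorFree G (⊤ : SimpleGraph (Fin m)) q → FatMinorFree G (grid k) q →
    ∃ χ : V → Fin 2, ∀ x y, JChain G r {p | χ p = χ x} x y →
      NearN G (pD N (m + k) M q r (r + 1)) x y := by
  obtain ⟨M, hM⟩ := slabP m k
  refine ⟨M, fun V G N f F q r hq hA hfree1 hfree2 => ?_⟩
  refine ⟨fun x => if f x / (r + 1) % 2 = 0 then 0 else 1, fun x y hxy => ?_⟩
  have hmem : ∀ z, z ∈ Slab f (f z / (r + 1) * (r + 1)) (r + 1) := by
    intro z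
    have h1 := Nat.div_add_mod (f z) (r + 1)
    have h2 := Nat.mod_lt (f z) (show 0 < r + 1 by omega)
    rw [Nat.mul_comm] at h1
    exact ⟨by omega, by omega⟩
  have key : JChain G r (Slab f (f x / (r + 1) * (r + 1)) (r + 1)) x y ∧
      f y / (r + 1) = f x / (r + 1) := by
    induction hxy with
    | refl => exact ⟨JChain.refl x, rfl⟩
    | @tail b c _ h ih =>
      obtain ⟨h1, h2⟩ := ih
      obtain ⟨hb, hc, hn⟩ := h
      have hcol : (f b / (r + 1) % 2 = 0) ↔ (f c / (r + 1) % 2 = 0) := by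
        have hb' : (if f b / (r + 1) % 2 = 0 then (0 : Fin 2) else 1) =
            if f x / (r + 1) % 2 = 0 then 0 else 1 := hb
        have hc' : (if f c / (r + 1) % 2 = 0 then (0 : Fin 2) else 1) =
            if f x / (r + 1) % 2 = 0 then 0 else 1 := hc
        rw [← hc'] at hb'
        split_ifs at hb' with g1 g2 g3
        · exact ⟨fun _ => g2, fun _ => g1⟩
        · exact absurd hb' (by decide)
        · exact absurd hb' (by decide)
        · exact ⟨fun h => absurd h g1, fun h => absurd h g3⟩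
      have k1 := hA.base.f_near hn
      have k2 := hA.base.f_near hn.symm
      have k3 : f c / (r + 1) ≤ (f b + (r + 1)) / (r + 1) := Nat.div_le_div_right (by omega)
      have k4 : f b / (r + 1) ≤ (f c + (r + 1)) / (r + 1) := Nat.div_le_div_right (by omega)
      rw [Nat.add_div_right _ (by omega)] at k3 k4
      have k5 : f c / (r + 1) = f b / (r + 1) := by omega
      have h3 : f c / (r + 1) = f x / (r + 1) := k5.trans h2
      refine ⟨h1.trans (JChain.of_near ?_ ?_ hn), h3⟩
      · rw [← h2]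
        exact hmem b
      · rw [← h3]
        exact hmem c
  exact hM V G N f F q r (r + 1) hq hA hfree1 hfree2 _ x y (hmem x) key.1

/-- The bound is linear if the cost function is. -/
theorem lin_pD {N : ℕ → ℕ} {c : ℕ} (hN : ∀ i, N i ≤ c * (i + 1)) (k M : ℕ) :
    ∃ C, ∀ q r w, pD N k M q r w ≤ C * (q + r + w + 1) := by
  have hT := lin_aT hN k M
  have hΔ : LinF fun q r w => pΔ N k M q r w :=
    ((lin_zq M).add (LinF.const 1)).add ((LinF.w.add hT).mul 2)
  exact (((hΔ.add LinF.r).add (LinF.const 1)).mul M).add ((LinF.w.add hT).mul 2)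

end Pool.Agent.MP_fd1949_A
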