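import Mathlib
import Pool.Agent.Lib.MP_fd1949_P.CompI
import Pool.Agent.Lib.MP_fd1949_C.Cover3
import Pool.Agent.Lib.MP_fd1949_C.Slow
import Pool.Agent.Lib.MP_fd1949_A.PlanA
import Pool.Agent.Lib.MP_fd1949_A.LocA
import Pool.Agent.Lib.MP_fd1949_A.ModA

/-!
# The theorems for almost convex graphs
-/

namespace Pool.Agent.MP_fd1949_A

open Pool.Agent.MP_fd1949_co Pool.Agent.MP_fd1949_P Pool.Agent.MP_fd1949_C

/-- `G` is almost convex with cost `N`. -/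
def AlmostConvex {V : Type} (N : ℕ → ℕ) (G : SimpleGraph V) : Prop :=
  ∃ o, Rooted G o ∧ ∀ i, Fill G o i (N i) 0

lemma AlmostConvex.mono {V : Type} {G : SimpleGraph V} {N N' : ℕ → ℕ} (h : ∀ n, N n ≤ N' n)
    (hG : AlmostConvex N G) : AlmostConvex N' G := by
  obtain ⟨o, h1, h2⟩ := hG
  exact ⟨o, h1, fun i => (h2 i).mono le_rfl (h i) le_rfl⟩

theorem acon_of {V : Type} {G : SimpleGraph V} {N : ℕ → ℕ} (hG : AlmostConvex N G) :
    ∃ (f : V → ℕ) (F : V → ℕ → V), ACon G (top N) f F := by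
  obtain ⟨o, ho, hF⟩ := hG
  obtain ⟨γ, hγ⟩ := exists_geo ho.1
  refine ⟨fun x => G.dist (o x) x, γ, combing_geo ho.1 ho.2 hγ, fun x y i hxy hn => ?_,
    fun i j hij => Finset.sup_mono (Finset.range_mono (by omega))⟩
  obtain ⟨w, hw, hs⟩ := (hF i).walk ho hxy hn
  exact ⟨w, hw.trans (le_top N le_rfl), hs⟩

lemma top_lin {N : ℕ → ℕ} {c : ℕ} (h : ∀ i, N i ≤ c * (i + 1)) (i : ℕ) :
    top N i ≤ c * (i + 1) := by
  refine Finset.sup_le fun j hj => (h j).trans (Nat.mul_le_mul_left _ ?_)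
  have := Finset.mem_range.1 hj
  omega

/-- The colour classes have bounded `r`-components. -/
def Colour (V : Type) (G : SimpleGraph V) (d r D : ℕ) : Prop :=
  ∃ χ : V → Fin (d + 1), ∀ x y, JChain G r {p | χ p = χ x} x y → NearN G D x y

lemma fam_of_colour {V : Type} {G : SimpleGraph V} {d D : ℕ} {r : ℝ} (h : Colour V G d ⌈r⌉₊ D) :
    ∃ 𝒰 : Fin (d + 1) → Set (Set V),
      (∀ x, ∃ i, ∃ A ∈ 𝒰 i, x ∈ A) ∧ ∀ i, Disj G r (𝒰 i) ∧ Bdd G (D : ℝ) (𝒰 i) := by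
  obtain ⟨χ, h⟩ := h
  refine ⟨fun i => {A | ∃ x, χ x = i ∧
      A = {y | y ∈ {p | χ p = i} ∧ JChain G ⌈r⌉₊ {p | χ p = i} x y}},
    fun x => ⟨χ x, _, ⟨x, rfl, rfl⟩, rfl, JChain.refl x⟩, fun i => ⟨?_, ?_⟩⟩
  · rintro A ⟨x, hx, rfl⟩ B ⟨y, hy, rfl⟩ hAB u ⟨hu, hxu⟩ v ⟨hv, hyv⟩ ⟨w, hw⟩
    have hn : NearN G ⌈r⌉₊ u v := by
      refine ⟨w, ?_⟩
      have h3 : (w.length : ℝ) ≤ (⌈r⌉₊ : ℝ) := hw.trans (Nat.le_ceil r)
      exact_mod_cast h3
    apply hAB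
    have hxy : JChain G ⌈r⌉₊ {p | χ p = i} x y :=
      (hxu.trans (JChain.of_near hu hv hn)).trans hyv.symm
    ext p
    exact ⟨fun hp => ⟨hp.1, hxy.symm.trans hp.2⟩, fun hp => ⟨hp.1, hxy.trans hp.2⟩⟩
  · rintro A ⟨x, hx, rfl⟩ u ⟨hu, hxu⟩ v ⟨hv, hxv⟩
    have hu' : χ u = i := hu
    subst hu'
    exact near_of_nearN (h u v (hxu.symm.trans hxv))

/-- The diameter of the sets in the three families. -/
def aFin (N : ℕ → ℕ) (t M q r : ℕ) : ℕ :=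
  aD N t M q (aD N t M q r (r + 1) + 2 * r) (r + 1) + 2 * (aD N t M q r (r + 1) + r)

/-- From a graph `H` to a complete graph. -/
lemma free_top' {V W : Type} [Finite W] {G : SimpleGraph V} {H : SimpleGraph W} {q : ℕ}
    (h : FatMinorFree G H q) : FatMinorFree G (⊤ : SimpleGraph (Fin (Nat.card W))) q := by
  intro hf
  refine h (fat_of_inj (Finite.equivFin W) (Finite.equivFin W).injective ?_ hf)
  intro u v huv
  exact (Finite.equivFin W).injective.ne huv.ne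

/-- Three colours, or two colours for planar `H`. -/
theorem colA {d : ℕ} (W : Type) [Finite W] (H : SimpleGraph W)
    (hd : d = 2 ∨ d = 1 ∧ GridMinor H) : ∃ B : (ℕ → ℕ) → ℕ → ℕ → ℕ,
    (∀ (V : Type) (G : SimpleGraph V) (N : ℕ → ℕ) (q r : ℕ), 1 ≤ q → AlmostConvex N G →
      FatMinorFree G H q → Colour V G d r (B (top N) q r)) ∧
    ∀ (N : ℕ → ℕ) (c : ℕ), (∀ i, N i ≤ c * (i + 1)) →
      ∃ C : ℕ, ∀ q r, 1 ≤ q → 1 ≤ r → B N q r ≤ C * (q + r) := by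
  rcases hd with rfl | ⟨rfl, hH⟩
  · obtain ⟨M, hM⟩ := slabA (Nat.card W)
    refine ⟨fun N q r => aFin N (Nat.card W) M q r, fun V G N q r hq hG hfree => ?_,
      fun N c hN => ?_⟩
    · obtain ⟨f, F, hA⟩ := acon_of hG
      exact cover3 hA.base.lip (hM V G (top N) f F q r (r + 1) hq hA (free_top' hfree))
        (hM V G (top N) f F q _ (r + 1) hq hA (free_top' hfree))
    · obtain ⟨C, hC⟩ := lin_aD hN (Nat.card W) M
      refine ⟨C * (4 * C + 5) + 2 * (4 * C + 1), fun q r hq hr => ?_⟩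
      have h1 := hC q r (r + 1)
      have h2 := hC q (aD N (Nat.card W) M q r (r + 1) + 2 * r) (r + 1)
      have e1 : C * (q + r + (r + 1) + 1) ≤ C * (4 * (q + r)) :=
        Nat.mul_le_mul_left _ (by omega)
      have e2 : C * (q + (aD N (Nat.card W) M q r (r + 1) + 2 * r) + (r + 1) + 1) ≤
          C * (C * (4 * (q + r)) + 5 * (q + r)) := Nat.mul_le_mul_left _ (by omega)
      have e3 : C * (C * (4 * (q + r)) + 5 * (q + r)) + 2 * (C * (4 * (q + r)) + (q + r)) =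
          (C * (4 * C + 5) + 2 * (4 * C + 1)) * (q + r) := by ring
      rw [← e3]
      show aFin N (Nat.card W) M q r ≤ _
      unfold aFin
      omega
  · obtain ⟨k, β, hconn, hdisj, hadj⟩ := hH
    obtain ⟨M, hM⟩ := colP (Nat.card W) k
    refine ⟨fun N q r => pD N (Nat.card W + k) M q r (r + 1), fun V G N q r hq hG hfree => ?_,
      fun N c hN => ?_⟩
    · obtain ⟨f, F, hA⟩ := acon_of hG
      exact hM V G (top N) f F q r hq hA (free_top' hfree)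
        fun hf => hfree (comp β hconn hdisj hadj hf)
    · obtain ⟨C, hC⟩ := lin_pD hN (Nat.card W + k) M
      refine ⟨C * 4, fun q r hq hr => (hC q r (r + 1)).trans ?_⟩
      rw [Nat.mul_assoc]
      exact Nat.mul_le_mul_left _ (by omega)

/-- Almost convex graphs. -/
theorem mainA {d : ℕ} (N : ℕ → ℕ) (W : Type) [Finite W] (H : SimpleGraph W)
    (hd : d = 2 ∨ d = 1 ∧ GridMinor H) : ∃ D : ℕ → ℝ → ℝ,
    (∀ q : ℕ, 1 ≤ q → AsdimWith (fun _ G => AlmostConvex N G ∧ FatMinorFree G H q) d (D q)) ∧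
    ((∃ c, ∀ i, N i ≤ c * (i + 1)) → ∃ C : ℝ, ∀ q : ℕ, 1 ≤ q → ∀ r : ℝ, 0 < r →
      D q r ≤ C * (r + q)) := by
  obtain ⟨B, hB, hlin⟩ := colA W H hd
  refine ⟨fun q r => (B (top N) q ⌈r⌉₊ : ℕ), fun q hq => ?_, ?_⟩
  · intro V _ G hG r hr
    exact fam_of_colour (hB V G N q ⌈r⌉₊ hq hG.1 hG.2)
  · rintro ⟨c, hc⟩
    obtain ⟨C, hC⟩ := hlin (top N) c (top_lin hc)
    refine ⟨2 * (C : ℝ), fun q hq r hr => ?_⟩
    have hr' : 0 < ⌈r⌉₊ := Nat.ceil_pos.2 hr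
    have h1 := hC q ⌈r⌉₊ hq hr'
    have h2 : ((B (top N) q ⌈r⌉₊ : ℕ) : ℝ) ≤ (C : ℝ) * ((q : ℝ) + ⌈r⌉₊) := by
      exact_mod_cast h1
    refine h2.trans ?_
    have h4 : (⌈r⌉₊ : ℝ) < r + 1 := Nat.ceil_lt_add_one hr.le
    have h5 : (1 : ℝ) ≤ (q : ℝ) := by exact_mod_cast hq
    have h6 : (C : ℝ) * ((q : ℝ) + (⌈r⌉₊ : ℝ)) ≤ (C : ℝ) * (2 * (r + q)) :=
      mul_le_mul_of_nonneg_left (by linarith) (Nat.cast_nonneg C)
    linarith

/-- The theorem for graphs with filling functions, weakly modular graphs and hyperbolic graphs. -/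
theorem main {d : ℕ} (N E : ℕ → ℕ) (hE : ∃ i, 2 * E i + 3 ≤ i) (δ : ℕ) (W : Type) [Finite W]
    (H : SimpleGraph W) (hd : d = 2 ∨ d = 1 ∧ GridMinor H) : ∃ D : ℕ → ℝ → ℝ,
    (∀ q : ℕ, 1 ≤ q → AsdimWith (fun _ G =>
      ((∃ o, Rooted G o ∧ (Modular G o ∨ ∀ i, Fill G o i (N i) (E i))) ∨ FourPoint δ G) ∧
        FatMinorFree G H q) d (D q)) ∧
    ((∃ c, ∀ i, N i ≤ c * (i + 1) ∧ E i ≤ c) → ∃ C : ℝ, ∀ q : ℕ, 1 ≤ q → ∀ r : ℝ, 0 < r →
      D q r ≤ C * (r + q)) := by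
  -- the cost of the general case
  obtain ⟨N', hN', hlin'⟩ : ∃ N' : ℕ → ℕ,
      (∀ (V : Type) (G : SimpleGraph V) (o : V → V), Rooted G o →
        (∀ i, Fill G o i (N i) (E i)) → ∀ i, Fill G o i (N' i) 0) ∧
      ((∃ c, ∀ i, N i ≤ c * (i + 1) ∧ E i ≤ c) → ∃ c, ∀ i, N' i ≤ c * (i + 1)) := by
    by_cases hb : ∃ c, ∀ i, N i ≤ c * (i + 1) ∧ E i ≤ c
    · obtain ⟨c, hc⟩ := hb
      refine ⟨fun i => 2 * c + c * (i + 2 * c + 1), fun V G o ho h i => ?_, fun _ =>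
        ⟨2 * c + c * (2 * c + 1), fun i => ?_⟩⟩
      · exact fill_down ho ((h (i + 2 * c)).mono le_rfl (hc _).1 (hc _).2)
      · have h1 : (2 * c + c * (2 * c + 1)) * (i + 1) =
          (2 * c + c * (i + 2 * c + 1)) + (2 * c * i + 2 * c * c * i) := by ring
        rw [h1]
        exact Nat.le_add_right _ _
    · obtain ⟨i₀, hi₀⟩ := hE
      exact ⟨fun i => locN (E i₀) (N i₀) i i, fun V G o ho h i =>
        fill_local ho ((h i₀).mono hi₀ le_rfl le_rfl) i, fun h => absurd h hb⟩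
  obtain ⟨D, hD, hlin⟩ := mainA (fun i => N' i + 2 * i + (2 * δ + (i + 2 * δ))) W H hd
  refine ⟨D, fun q hq V _ G hG r hr => hD q hq V G ⟨?_, hG.2⟩ r hr, fun h => hlin ?_⟩
  · rcases hG.1 with ⟨o, ho, h1 | h1⟩ | h1
    · exact ⟨o, ho, fun i => (fill_of_modular ho h1 i).mono le_rfl (by simp only; omega) le_rfl⟩
    · exact ⟨o, ho, fun i => (hN' V G o ho h1 i).mono le_rfl (by simp only; omega) le_rfl⟩
    · obtain ⟨o, ho⟩ := exists_rooted G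
      exact ⟨o, ho, fun i => (fill_down ho (fill_of_fourPoint h1 ho (i + 2 * δ))).mono le_rfl
        (by simp only; omega) le_rfl⟩
  · obtain ⟨c, hc⟩ := hlin' h
    refine ⟨c + 3 + 4 * δ, fun i => ?_⟩
    have h1 := hc i
    have h2 : (c + 3 + 4 * δ) * (i + 1) =
      c * (i + 1) + 2 * i + (2 * δ + (i + 2 * δ)) + (3 + 4 * δ * i) := by ring
    rw [h2]
    omega

end Pool.Agent.MP_fd1949_A
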